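import Pool.Agent.T6.H44.PA.Defs

/-! Module CO (helper24): comparison of the means over graphs with `k₁ ≤ k₂` edges. -/

set_option autoImplicit false

namespace Pool.Agent.T6.H44.PA

open Finset Classical Filter Topology

namespace ModCO

theorem card_sup {α : Type} (E H : Finset α) {k l : ℕ} (hH : H ⊆ E) (hk : H.card = k)
    (hl : k ≤ l) : ((E.powersetCard l).filter (fun S => H ⊆ S)).card =
      (E.card - k).choose (l - k) := by
  have h1 : (E \ H).card = E.card - k := by
    rw [Finset.card_sdiff_of_subset hH, hk]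
  rw [← h1, ← Finset.card_powersetCard]
  refine Finset.card_nbij' (fun S => S \ H) (fun S => S ∪ H) ?_ ?_ ?_ ?_
  · intro S hS
    rw [Finset.mem_coe, Finset.mem_filter, Finset.mem_powersetCard] at hS
    rw [Finset.mem_coe, Finset.mem_powersetCard]
    refine ⟨Finset.sdiff_subset_sdiff hS.1.1 le_rfl, ?_⟩
    rw [Finset.card_sdiff_of_subset hS.2, hS.1.2, hk]
  · intro S hS
    rw [Finset.mem_coe, Finset.mem_powersetCard] at hS
    rw [Finset.mem_coe, Finset.mem_filter, Finset.mem_powersetCard]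
    have hd : Disjoint S H := by
      rw [Finset.disjoint_left]
      intro x hx hx'
      exact (Finset.mem_sdiff.1 (hS.1 hx)).2 hx'
    refine ⟨⟨Finset.union_subset (hS.1.trans Finset.sdiff_subset) hH, ?_⟩,
      Finset.subset_union_right⟩
    rw [Finset.card_union_of_disjoint hd, hS.2, hk]
    omega
  · intro S hS
    rw [Finset.mem_coe, Finset.mem_filter] at hS
    exact Finset.sdiff_union_of_subset hS.2
  · intro S hS
    rw [Finset.mem_coe, Finset.mem_powersetCard] at hS
    have hd : Disjoint S H := by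
      rw [Finset.disjoint_left]
      intro x hx hx'
      exact (Finset.mem_sdiff.1 (hS.1 hx)).2 hx'
    show (S ∪ H) \ H = S
    rw [Finset.union_sdiff_right]
    exact Finset.sdiff_eq_self_of_disjoint hd

end ModCO

open ModCO in
theorem co : StmCO := by
  intro n k₁ k₂ A B h12 h2 hAB
  set E := allE n with hE
  set N := E.card with hN
  have hsum : ((N - k₁).choose (k₂ - k₁) : ℝ) * ∑ H ∈ E.powersetCard k₁, A H ≤
      (k₂.choose k₁ : ℝ) * ∑ H ∈ E.powersetCard k₂, B H := by
    have e1 : ((N - k₁).choose (k₂ - k₁) : ℝ) * ∑ H ∈ E.powersetCard k₁, A H =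
        ∑ H₁ ∈ E.powersetCard k₁, ∑ H₂ ∈ E.powersetCard k₂, if H₁ ⊆ H₂ then A H₁ else 0 := by
      rw [Finset.mul_sum]
      refine Finset.sum_congr rfl fun H₁ h1 => ?_
      rw [Finset.mem_powersetCard] at h1
      have hcs := card_sup E H₁ h1.1 h1.2 h12
      rw [← Finset.sum_filter, Finset.sum_const, nsmul_eq_mul]
      have h3 : ((E.powersetCard k₂).filter (fun a => H₁ ⊆ a)).card =
          (N - k₁).choose (k₂ - k₁) := by
        rw [← hcs]
        congr!
      congr 2
      rw [← h3]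
    have e2 : (k₂.choose k₁ : ℝ) * ∑ H ∈ E.powersetCard k₂, B H =
        ∑ H₁ ∈ E.powersetCard k₁, ∑ H₂ ∈ E.powersetCard k₂, if H₁ ⊆ H₂ then B H₂ else 0 := by
      rw [Finset.sum_comm, Finset.mul_sum]
      refine Finset.sum_congr rfl fun H₂ h1 => ?_
      rw [Finset.mem_powersetCard] at h1
      have h3 : (E.powersetCard k₁).filter (fun H₁ => H₁ ⊆ H₂) = H₂.powersetCard k₁ := by
        ext S
        rw [Finset.mem_filter, Finset.mem_powersetCard, Finset.mem_powersetCard]
        constructor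
        · rintro ⟨⟨_, h5⟩, h6⟩
          exact ⟨h6, h5⟩
        · rintro ⟨h5, h6⟩
          exact ⟨⟨h5.trans h1.1, h6⟩, h5⟩
      rw [← Finset.sum_filter, h3, Finset.sum_const, Finset.card_powersetCard, h1.2,
        nsmul_eq_mul]
    rw [e1, e2]
    refine Finset.sum_le_sum fun H₁ h3 => Finset.sum_le_sum fun H₂ h4 => ?_
    rw [Finset.mem_powersetCard] at h3 h4
    split_ifs with h5
    · exact hAB H₁ H₂ h5 h4.1 h3.2 h4.2
    · exact le_rfl
  have hc : (N.choose k₂ : ℝ) * (k₂.choose k₁ : ℝ) =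
      (N.choose k₁ : ℝ) * ((N - k₁).choose (k₂ - k₁) : ℝ) := by
    exact_mod_cast Nat.choose_mul h12
  have p1 : (0 : ℝ) < (N.choose k₁ : ℝ) := by exact_mod_cast Nat.choose_pos (h12.trans h2)
  have p2 : (0 : ℝ) < (N.choose k₂ : ℝ) := by exact_mod_cast Nat.choose_pos h2
  have p3 : (0 : ℝ) < (k₂.choose k₁ : ℝ) := by exact_mod_cast Nat.choose_pos h12
  have p4 : (0 : ℝ) < ((N - k₁).choose (k₂ - k₁) : ℝ) := by
    exact_mod_cast Nat.choose_pos (by omega)
  unfold um
  rw [div_le_div_iff₀ p1 p2]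
  have h5 : (∑ H ∈ E.powersetCard k₁, A H) * (N.choose k₂ : ℝ) * (k₂.choose k₁ : ℝ) ≤
      (∑ H ∈ E.powersetCard k₂, B H) * (N.choose k₁ : ℝ) * (k₂.choose k₁ : ℝ) := by
    have h6 := mul_le_mul_of_nonneg_left hsum p1.le
    calc (∑ H ∈ E.powersetCard k₁, A H) * (N.choose k₂ : ℝ) * (k₂.choose k₁ : ℝ)
        = (∑ H ∈ E.powersetCard k₁, A H) * ((N.choose k₂ : ℝ) * (k₂.choose k₁ : ℝ)) := by ring
      _ = (N.choose k₁ : ℝ) * (((N - k₁).choose (k₂ - k₁) : ℝ) *
          ∑ H ∈ E.powersetCard k₁, A H) := by rw [hc]; ring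
      _ ≤ (N.choose k₁ : ℝ) * ((k₂.choose k₁ : ℝ) * ∑ H ∈ E.powersetCard k₂, B H) := h6
      _ = _ := by ring
  exact le_of_mul_le_mul_right h5 p3

end Pool.Agent.T6.H44.PA
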