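import Pool.Agent.T6.H44.PA.Defs

/-!
Project PA (helper44), module DET: nested graphs with close susceptibilities. (helper46)
-/

set_option autoImplicit false

namespace Pool.Agent.T6.H44.PA

open Finset Classical Filter Topology
open Pool.Agent.H890.C (ex cl)

namespace ModDET

variable {n : ℕ}

theorem mem_comp {H : Finset (Sym2 (Fin n))} {v w : Fin n} : w ∈ comp H v ↔
    (SimpleGraph.fromEdgeSet (H : Set (Sym2 (Fin n)))).Reachable v w := by
  simp [comp]

theorem self_mem (H : Finset (Sym2 (Fin n))) (v : Fin n) : v ∈ comp H v := by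
  rw [mem_comp]

theorem comp_eq {H : Finset (Sym2 (Fin n))} {v w : Fin n} (h : w ∈ comp H v) :
    comp H w = comp H v := by
  rw [mem_comp] at h
  ext u
  rw [mem_comp, mem_comp]
  exact ⟨fun h1 => h.trans h1, fun h1 => h.symm.trans h1⟩

theorem comp_mono {H₁ H₂ : Finset (Sym2 (Fin n))} (h : H₁ ⊆ H₂) (v : Fin n) :
    comp H₁ v ⊆ comp H₂ v := by
  intro w hw
  rw [mem_comp] at hw ⊢
  exact hw.mono (SimpleGraph.fromEdgeSet_mono (by exact_mod_cast h))

theorem mem_comps {H : Finset (Sym2 (Fin n))} {C : Finset (Fin n)} :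
    C ∈ comps H ↔ ∃ v, comp H v = C := by
  simp [comps]

variable {H₁ H₂ : Finset (Sym2 (Fin n))} {θ : ℝ}

theorem sum_lt (h : H₁ ⊆ H₂)
    (hd : ∑ v, ((comp H₂ v).card : ℝ) - ∑ v, ((comp H₁ v).card : ℝ) < θ ^ 2)
    (S : Finset (Fin n)) :
    ∑ v ∈ S, (((comp H₂ v).card : ℝ) - (comp H₁ v).card) < θ ^ 2 := by
  refine lt_of_le_of_lt ?_ hd
  rw [← sum_sub_distrib]
  refine sum_le_sum_of_subset_of_nonneg (subset_univ S) fun v _ _ => ?_
  have : (comp H₁ v).card ≤ (comp H₂ v).card := card_le_card (comp_mono h v)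
  rw [sub_nonneg]
  exact_mod_cast this

/-- a large component of the large graph contains a component of the small graph of almost the
same size -/
theorem key_a (h : H₁ ⊆ H₂) (hθ : 0 < θ)
    (hd : ∑ v, ((comp H₂ v).card : ℝ) - ∑ v, ((comp H₁ v).card : ℝ) < θ ^ 2)
    {C : Finset (Fin n)} (hC : C ∈ comps H₂) (hC2 : 2 * θ ≤ C.card) :
    ∃ C' ∈ comps H₁, C' ⊆ C ∧ C'.Nonempty ∧ (C.card : ℝ) - θ / 2 ≤ C'.card := by
  obtain ⟨v0, rfl⟩ := mem_comps.1 hC
  by_contra hcon
  push Not at hcon
  have h1 := sum_lt h hd (comp H₂ v0)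
  have h2 : ∑ v ∈ comp H₂ v0, (θ / 2) ≤
      ∑ v ∈ comp H₂ v0, (((comp H₂ v).card : ℝ) - (comp H₁ v).card) := by
    refine sum_le_sum fun v hv => ?_
    have e := comp_eq hv
    have h3 := hcon (comp H₁ v) (mem_comps.2 ⟨v, rfl⟩) (by rw [← e]; exact comp_mono h v)
      ⟨v, self_mem _ _⟩
    rw [e]
    linarith
  rw [sum_const, nsmul_eq_mul] at h2
  nlinarith

/-- large components of the small graph lie in different components of the large graph -/
theorem key_c (h : H₁ ⊆ H₂) (hθ : 0 < θ)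
    (hd : ∑ v, ((comp H₂ v).card : ℝ) - ∑ v, ((comp H₁ v).card : ℝ) < θ ^ 2)
    {u v : Fin n} (hu : θ ≤ (comp H₁ u).card) (hv : θ ≤ (comp H₁ v).card)
    (huv : comp H₂ u = comp H₂ v) : comp H₁ u = comp H₁ v := by
  by_contra hne
  have h1 := sum_lt h hd (comp H₁ u)
  have h2 : ∑ w ∈ comp H₁ u, ((comp H₁ v).card : ℝ) ≤
      ∑ w ∈ comp H₁ u, (((comp H₂ w).card : ℝ) - (comp H₁ w).card) := by
    refine sum_le_sum fun w hw => ?_
    have e := comp_eq hw
    have e2 := comp_eq (comp_mono h u hw)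
    rw [e, e2]
    have hdisj : Disjoint (comp H₁ v) (comp H₁ u) := by
      rw [disjoint_left]
      intro x hx hx'
      exact hne ((comp_eq hx').symm.trans (comp_eq hx))
    have hsub : comp H₁ v ∪ comp H₁ u ⊆ comp H₂ u := by
      refine union_subset ?_ (comp_mono h u)
      rw [huv]
      exact comp_mono h v
    have h3 := card_le_card hsub
    rw [card_union_of_disjoint hdisj] at h3
    have h4 : ((comp H₁ v).card : ℝ) + (comp H₁ u).card ≤ (comp H₂ u).card := by exact_mod_cast h3
    linarith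
  rw [sum_const, nsmul_eq_mul] at h2
  nlinarith

theorem L_spec {H : Finset (Sym2 (Fin n))} {j : ℕ} (hL : L H j ≠ 0) :
    j ≤ ((comps H).filter (fun C => L H j ≤ C.card)).card := by
  have := Nat.findGreatest_of_ne_zero (P := fun s => j ≤ ((comps H).filter (fun C => s ≤ C.card)).card)
    (n := n) (m := L H j) rfl hL
  exact this

theorem L_le (H : Finset (Sym2 (Fin n))) (j : ℕ) : L H j ≤ n := Nat.findGreatest_le n

theorem le_L {H : Finset (Sym2 (Fin n))} {j s : ℕ} (hs : s ≤ n)
    (h : j ≤ ((comps H).filter (fun C => s ≤ C.card)).card) : s ≤ L H j :=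
  Nat.le_findGreatest hs h

end ModDET

open ModDET in
theorem det : StmDET := by
  intro n H₁ H₂ θ h hθ hd j hj
  rw [abs_le]
  constructor
  · -- `L H₂ j ≤ L H₁ j + 2 θ`
    by_cases hs : (L H₂ j : ℝ) < 2 * θ
    · have : (0 : ℝ) ≤ L H₁ j := Nat.cast_nonneg _
      linarith
    push Not at hs
    have hL0 : L H₂ j ≠ 0 := by
      intro h0
      rw [h0] at hs
      push_cast at hs
      linarith
    have h1 := L_spec hL0
    have h2 : ⌈(L H₂ j : ℝ) - θ / 2⌉₊ ≤ L H₁ j := by
      apply le_L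
      · refine le_trans ?_ (L_le H₂ j)
        apply Nat.ceil_le.2
        linarith
      · refine h1.trans ?_
        have hex : ∀ C ∈ (comps H₂).filter (fun C => L H₂ j ≤ C.card), ∃ C' ∈ comps H₁, C' ⊆ C ∧
            C'.Nonempty ∧ (C.card : ℝ) - θ / 2 ≤ C'.card := by
          intro C hC
          rw [mem_filter] at hC
          refine key_a h hθ hd hC.1 (hs.trans ?_)
          exact_mod_cast hC.2
        choose! F hF1 hF2 hF3 hF4 using hex
        refine card_le_card_of_injOn F ?_ ?_
        · intro C hC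
          rw [mem_coe] at hC
          rw [mem_coe, mem_filter]
          refine ⟨hF1 C hC, Nat.ceil_le.2 (le_trans ?_ (hF4 C hC))⟩
          have : (L H₂ j : ℝ) ≤ C.card := by exact_mod_cast (mem_filter.1 hC).2
          linarith
        · intro C hC C' hC' e
          rw [mem_coe] at hC hC'
          obtain ⟨x, hx⟩ := hF3 C hC
          have hx1 := hF2 C hC hx
          rw [e] at hx
          have hx2 := hF2 C' hC' hx
          obtain ⟨u, rfl⟩ := mem_comps.1 (mem_filter.1 hC).1
          obtain ⟨v, rfl⟩ := mem_comps.1 (mem_filter.1 hC').1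
          rw [← comp_eq hx1, ← comp_eq hx2]
    have h3 := Nat.le_ceil ((L H₂ j : ℝ) - θ / 2)
    have h4 : ((⌈(L H₂ j : ℝ) - θ / 2⌉₊ : ℕ) : ℝ) ≤ L H₁ j := by exact_mod_cast h2
    linarith
  · by_cases hs : (L H₁ j : ℝ) < 2 * θ
    · have : (0 : ℝ) ≤ L H₂ j := Nat.cast_nonneg _
      linarith
    push Not at hs
    have hL0 : L H₁ j ≠ 0 := by
      intro h0
      rw [h0] at hs
      push_cast at hs
      linarith
    have h1 := L_spec hL0
    have h2 : L H₁ j ≤ L H₂ j := by
      apply le_L (L_le H₁ j)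
      refine h1.trans ?_
      have hex : ∀ C ∈ (comps H₁).filter (fun C => L H₁ j ≤ C.card), ∃ v, comp H₁ v = C := by
        intro C hC
        exact mem_comps.1 (mem_filter.1 hC).1
      haveI : Nonempty (Fin n) := ⟨⟨0, by have := L_le H₁ j; omega⟩⟩
      choose! F hF using hex
      refine card_le_card_of_injOn (fun C => comp H₂ (F C)) ?_ ?_
      · intro C hC
        rw [mem_coe] at hC
        rw [mem_coe, mem_filter]
        refine ⟨mem_comps.2 ⟨_, rfl⟩, le_trans ((mem_filter.1 hC).2) ?_⟩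
        have h5 := card_le_card (comp_mono h (F C))
        rwa [hF C hC] at h5
      · intro C hC C' hC' e
        rw [mem_coe] at hC hC'
        have e1 := hF C hC
        have e2 := hF C' hC'
        rw [← e1, ← e2]
        have h5 : (L H₁ j : ℝ) ≤ C.card := by exact_mod_cast (mem_filter.1 hC).2
        have h6 : (L H₁ j : ℝ) ≤ C'.card := by exact_mod_cast (mem_filter.1 hC').2
        refine key_c h hθ hd ?_ ?_ e
        · rw [e1]; linarith
        · rw [e2]; linarith
    have h3 : (L H₁ j : ℝ) ≤ L H₂ j := by exact_mod_cast h2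
    linarith

end Pool.Agent.T6.H44.PA
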