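import Pool.Agent.T6.H44.PA.Defs

/-! Module SW (helper24): from the binomial to the uniform random graph. -/

set_option autoImplicit false

namespace Pool.Agent.T6.H44.PA

open Finset Classical Filter Topology
open Pool.Agent.H890.C (ex cl)

namespace ModSW

/-- binomial weights -/
noncomputable def bb (N : ℕ) (π : ℝ) (k : ℕ) : ℝ := (N.choose k : ℝ) * π ^ k * (1 - π) ^ (N - k)

theorem bb_nonneg {N : ℕ} {π : ℝ} (h0 : 0 ≤ π) (h1 : π ≤ 1) (k : ℕ) : 0 ≤ bb N π k := by
  unfold bb
  have : 0 ≤ 1 - π := by linarith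
  positivity

theorem bb_eq (N : ℕ) (π : ℝ) (k : ℕ) : bb N π k = (bernsteinPolynomial ℝ N k).eval π := by
  unfold bb bernsteinPolynomial
  simp

theorem bb_sum (N : ℕ) (π : ℝ) : ∑ k ∈ range (N + 1), bb N π k = 1 := by
  have h := congrArg (Polynomial.eval π) (bernsteinPolynomial.sum ℝ N)
  rw [Polynomial.eval_finsetSum, Polynomial.eval_one] at h
  rw [← h]
  exact Finset.sum_congr rfl fun k _ => bb_eq N π k

theorem bb_var (N : ℕ) (π : ℝ) : ∑ k ∈ range (N + 1), ((N : ℝ) * π - k) ^ 2 * bb N π k =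
    N * π * (1 - π) := by
  have h := congrArg (Polynomial.eval π) (bernsteinPolynomial.variance ℝ N)
  rw [Polynomial.eval_finsetSum] at h
  simp only [Polynomial.eval_mul, Polynomial.eval_pow, Polynomial.eval_sub,
    Polynomial.eval_X, Polynomial.eval_natCast, Polynomial.eval_one, nsmul_eq_mul] at h
  rw [← h]
  exact Finset.sum_congr rfl fun k _ => by rw [bb_eq]

theorem cheb {N : ℕ} {π x : ℝ} (h0 : 0 ≤ π) (h1 : π ≤ 1) (hx : 0 < x)
    (hv : 4 * (N * π) ≤ x ^ 2) (P : ℕ → Prop) [DecidablePred P] (hP : ∀ k, P k → x ^ 2 ≤ ((N : ℝ) * π - k) ^ 2) :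
    ∑ k ∈ range (N + 1), (if P k then bb N π k else 0) ≤ 1 / 4 := by
  have h2 : x ^ 2 * ∑ k ∈ range (N + 1), (if P k then bb N π k else 0) ≤ N * π := by
    calc x ^ 2 * ∑ k ∈ range (N + 1), (if P k then bb N π k else 0)
        = ∑ k ∈ range (N + 1), x ^ 2 * (if P k then bb N π k else 0) := by rw [Finset.mul_sum]
      _ ≤ ∑ k ∈ range (N + 1), ((N : ℝ) * π - k) ^ 2 * bb N π k := by
          refine Finset.sum_le_sum fun k _ => ?_
          have h3 := bb_nonneg (N := N) h0 h1 k
          split_ifs with h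
          · exact mul_le_mul_of_nonneg_right (hP k h) h3
          · rw [mul_zero]
            positivity
      _ = N * π * (1 - π) := bb_var N π
      _ ≤ N * π := by
          have : 0 ≤ (N : ℝ) * π := by positivity
          nlinarith
  have hx2 : 0 < x ^ 2 := by positivity
  have h3 : x ^ 2 * ∑ k ∈ range (N + 1), (if P k then bb N π k else 0) ≤ x ^ 2 * (1 / 4) := by
    linarith
  exact le_of_mul_le_mul_left h3 hx2

theorem ed_subset {n : ℕ} (ω : Sym2 (Fin n) → Bool) : ed ω ⊆ allE n := Finset.filter_subset _ _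

theorem ed_iff {n : ℕ} (ω : Sym2 (Fin n) → Bool) {H : Finset (Sym2 (Fin n))} (hH : H ⊆ allE n) :
    ed ω = H ↔ ∀ e, ¬ e.IsDiag → (ω e = true ↔ e ∈ H) := by
  constructor
  · rintro rfl e he
    unfold ed allE
    simp [he]
  · intro h
    ext e
    unfold ed
    rw [Finset.mem_filter]
    constructor
    · rintro ⟨h1, h2⟩
      exact (h e (Finset.mem_filter.1 h1).2).1 h2
    · intro h1
      exact ⟨hH h1, (h e (Finset.mem_filter.1 (hH h1)).2).2 h1⟩

theorem ex_ed {n : ℕ} (π : ℝ) {H : Finset (Sym2 (Fin n))} (hH : H ⊆ allE n) :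
    ex (pc n π) (fun ω => if ed ω = H then 1 else 0) =
      π ^ H.card * (1 - π) ^ ((allE n).card - H.card) := by
  let hh : Sym2 (Fin n) → Bool → ℝ := fun e b =>
    if e.IsDiag then (1 : ℝ) else if (b = true ↔ e ∈ H) then 1 else 0
  have h1 : (fun ω : Sym2 (Fin n) → Bool => if ed ω = H then (1 : ℝ) else 0) = fun ω =>
      ∏ e, hh e (ω e) := by
    funext ω
    by_cases h : ed ω = H
    · rw [if_pos h]
      symm
      refine Finset.prod_eq_one fun e _ => ?_
      by_cases hd : e.IsDiag
      · simp [hh, hd]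
      · have := (ed_iff ω hH).1 h e hd
        simp only [hh, hd, if_false, this, if_true, iff_self]
    · rw [if_neg h]
      have h2 : ∃ e : Sym2 (Fin n), ¬ e.IsDiag ∧ ¬ (ω e = true ↔ e ∈ H) := by
        by_contra hcon
        push Not at hcon
        apply h
        rw [ed_iff ω hH]
        intro e he
        have := hcon e he
        tauto
      obtain ⟨e, he, he'⟩ := h2
      symm
      refine Finset.prod_eq_zero (mem_univ e) ?_
      simp only [hh, he, if_false, he']
  rw [h1, H890.C.ex_prod (pc n π) hh]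
  have h2 : ∀ e : Sym2 (Fin n), (pc n π e * hh e true + (1 - pc n π e) * hh e false) =
      if e ∈ allE n then (if e ∈ H then π else 1 - π) else 1 := by
    intro e
    unfold pc allE
    by_cases hd : e.IsDiag
    · simp [hh, hd]
    · by_cases he : e ∈ H
      · simp [hh, hd, he]
      · simp [hh, hd, he]
  rw [Finset.prod_congr rfl fun e _ => h2 e, Finset.prod_ite_mem, Finset.univ_inter,
    Finset.prod_ite, Finset.prod_const, Finset.prod_const]
  congr 2
  · congr 1
    ext e
    rw [Finset.mem_filter]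
    exact ⟨fun h => h.2, fun h => ⟨hH h, h⟩⟩
  · have : (allE n).filter (fun e => e ∉ H) = allE n \ H := by
      ext e
      rw [Finset.mem_filter, Finset.mem_sdiff]
    rw [this, Finset.card_sdiff_of_subset hH]

theorem gp_formula {n : ℕ} (π : ℝ) (f : Finset (Sym2 (Fin n)) → ℝ) :
    gp π f = ∑ k ∈ range ((allE n).card + 1), bb (allE n).card π k * um k f := by
  have h1 : (fun ω : Sym2 (Fin n) → Bool => f (ed ω)) = fun ω =>
      ∑ H ∈ (allE n).powerset, f H * (if ed ω = H then 1 else 0) := by
    funext ω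
    rw [Finset.sum_eq_single (ed ω)]
    · simp
    · intro H _ hH
      rw [if_neg (Ne.symm hH), mul_zero]
    · intro h
      exact absurd (Finset.mem_powerset.2 (ed_subset ω)) h
  unfold gp
  rw [h1, H890.C.ex_sum, Finset.sum_powerset]
  refine Finset.sum_congr rfl fun k hk => ?_
  rw [Finset.mem_range, Nat.lt_succ_iff] at hk
  have hch : ((allE n).card.choose k : ℝ) ≠ 0 := by
    exact_mod_cast (Nat.choose_pos hk).ne'
  have h2 : ∀ H ∈ (allE n).powersetCard k,
      ex (pc n π) (fun ω => f H * (if ed ω = H then 1 else 0)) =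
      f H * (π ^ k * (1 - π) ^ ((allE n).card - k)) := by
    intro H hH
    rw [Finset.mem_powersetCard] at hH
    rw [H890.C.ex_smul, ex_ed π hH.1, hH.2]
  rw [Finset.sum_congr rfl h2, ← Finset.sum_mul]
  unfold bb um
  field_simp

/-- the tail of the binomial distribution -/
noncomputable def QQ (N : ℕ) (π : ℝ) (j : ℕ) : ℝ :=
  ∑ k ∈ range (N + 1), (if j < k then bb N π k else 0)

theorem um_ind {n : ℕ} (j k : ℕ) (hk : k ≤ (allE n).card) :
    um k (fun H : Finset (Sym2 (Fin n)) => if j < H.card then (1 : ℝ) else 0) =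
      if j < k then 1 else 0 := by
  have hch : ((allE n).card.choose k : ℝ) ≠ 0 := by
    exact_mod_cast (Nat.choose_pos hk).ne'
  unfold um
  have h : ∀ H ∈ (allE n).powersetCard k, (if j < H.card then (1 : ℝ) else 0) =
      if j < k then 1 else 0 := by
    intro H hH
    rw [(Finset.mem_powersetCard.1 hH).2]
  rw [Finset.sum_congr rfl h, Finset.sum_const, Finset.card_powersetCard, nsmul_eq_mul]
  field_simp

theorem QQ_gp {n : ℕ} (π : ℝ) (j : ℕ) : QQ (allE n).card π j =
    gp π (fun H : Finset (Sym2 (Fin n)) => if j < H.card then (1 : ℝ) else 0) := by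
  rw [gp_formula]
  unfold QQ
  refine Finset.sum_congr rfl fun k hk => ?_
  rw [Finset.mem_range, Nat.lt_succ_iff] at hk
  rw [um_ind j k hk]
  split_ifs <;> simp

theorem adm_pc {n : ℕ} {π : ℝ} (h0 : 0 ≤ π) (h1 : π ≤ 1) : H890.C.Adm (pc n π) := by
  intro e
  unfold pc
  split_ifs
  · exact ⟨le_rfl, zero_le_one⟩
  · exact ⟨h0, h1⟩

theorem QQ_mono {n : ℕ} {π₁ π₂ : ℝ} (h0 : 0 ≤ π₁) (h12 : π₁ ≤ π₂) (h2 : π₂ ≤ 1) (j : ℕ) :
    QQ (allE n).card π₁ j ≤ QQ (allE n).card π₂ j := by
  rw [QQ_gp, QQ_gp]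
  unfold gp
  refine H890.C.ex_le_of_le (adm_pc h0 (h12.trans h2)) (adm_pc (h0.trans h12) h2) ?_ ?_
  · intro e
    unfold pc
    split_ifs
    · exact le_rfl
    · exact h12
  · intro ω η h
    have hsub : ed ω ⊆ ed η := by
      intro e he
      unfold ed at he ⊢
      rw [Finset.mem_filter] at he ⊢
      refine ⟨he.1, ?_⟩
      have := h e
      rw [he.2] at this
      exact top_le_iff.1 this
    have hc := Finset.card_le_card hsub
    show (if j < (ed ω).card then (1 : ℝ) else 0) ≤ if j < (ed η).card then (1 : ℝ) else 0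
    split_ifs with h1 h2
    · exact le_rfl
    · omega
    · exact zero_le_one
    · exact le_rfl

/-- Abel summation -/
theorem abel (N : ℕ) (π : ℝ) (F : ℕ → ℝ) :
    ∑ k ∈ range (N + 1), bb N π k * F k =
      F 0 + ∑ j ∈ range N, (F (j + 1) - F j) * QQ N π j := by
  have h1 : ∀ k ∈ range (N + 1), F k = F 0 + ∑ j ∈ range N, (if j < k then F (j + 1) - F j else 0) := by
    intro k hk
    rw [Finset.mem_range, Nat.lt_succ_iff] at hk
    rw [← Finset.sum_filter]
    have : (range N).filter (fun j => j < k) = range k := by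
      ext j
      rw [Finset.mem_filter, Finset.mem_range, Finset.mem_range]
      omega
    rw [this, Finset.sum_range_sub]
    ring
  calc ∑ k ∈ range (N + 1), bb N π k * F k
      = ∑ k ∈ range (N + 1), (bb N π k * F 0 +
          ∑ j ∈ range N, (F (j + 1) - F j) * (if j < k then bb N π k else 0)) := by
        refine Finset.sum_congr rfl fun k hk => ?_
        conv_lhs => rw [h1 k hk]
        rw [mul_add, Finset.mul_sum]
        congr 1
        refine Finset.sum_congr rfl fun j _ => ?_
        split_ifs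
        · ring
        · ring
    _ = (∑ k ∈ range (N + 1), bb N π k) * F 0 +
          ∑ j ∈ range N, (F (j + 1) - F j) * QQ N π j := by
        rw [Finset.sum_add_distrib, ← Finset.sum_mul, Finset.sum_comm]
        congr 1
        refine Finset.sum_congr rfl fun j _ => ?_
        unfold QQ
        rw [Finset.mul_sum]
    _ = _ := by rw [bb_sum, one_mul]

theorem QQ_nonneg {N : ℕ} {π : ℝ} (h0 : 0 ≤ π) (h1 : π ≤ 1) (j : ℕ) : 0 ≤ QQ N π j := by
  unfold QQ
  refine Finset.sum_nonneg fun k _ => ?_
  split_ifs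
  · exact bb_nonneg h0 h1 k
  · exact le_rfl

theorem QQ_compl (N : ℕ) (π : ℝ) (j : ℕ) :
    QQ N π j = 1 - ∑ k ∈ range (N + 1), (if k ≤ j then bb N π k else 0) := by
  have h : QQ N π j + ∑ k ∈ range (N + 1), (if k ≤ j then bb N π k else 0) = 1 := by
    unfold QQ
    rw [← Finset.sum_add_distrib, ← bb_sum N π]
    refine Finset.sum_congr rfl fun k _ => ?_
    by_cases hk : k ≤ j
    · rw [if_neg (by omega), if_pos hk, zero_add]
    · rw [if_pos (by omega), if_neg hk, add_zero]
  linarith

end ModSW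

open ModSW in
theorem sw (hCO : StmCO) : StmSW := by
  intro n m₁ m₂ x f hf h12 hx hx2 hxm hN
  set N := (allE n).card with hNdef
  have hm2 : (m₂ : ℝ) < N := by linarith
  have hm2' : m₂ < N := by exact_mod_cast hm2
  have hm12 : (m₁ : ℝ) ≤ m₂ := by exact_mod_cast h12
  have hNpos : (0 : ℝ) < N := lt_of_le_of_lt (by positivity) hm2
  set p2 : ℝ := ((m₂ : ℝ) + x) / N with hp2
  set p1 : ℝ := ((m₁ : ℝ) - x) / N with hp1
  have e2 : (N : ℝ) * p2 = m₂ + x := by rw [hp2]; field_simp
  have e1 : (N : ℝ) * p1 = m₁ - x := by rw [hp1]; field_simp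
  have p20 : 0 ≤ p2 := by positivity
  have p21 : p2 ≤ 1 := by rw [hp2, div_le_one hNpos]; exact hN
  have p10 : 0 ≤ p1 := div_nonneg (by linarith) hNpos.le
  have p12 : p1 ≤ p2 := by
    rw [hp1, hp2]
    exact div_le_div_of_nonneg_right (by linarith) hNpos.le
  have p11 : p1 ≤ 1 := p12.trans p21
  -- the means are nondecreasing
  have hmono : ∀ j, j < N → 0 ≤ um (j + 1) f - um j f := by
    intro j hj
    have := hCO n j (j + 1) f f (Nat.le_succ j) hj (fun H₁ H₂ h h' _ _ => hf H₁ H₂ h h')
    linarith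
  have hQ2 : ∀ j, j < m₂ → 3 / 4 ≤ QQ N p2 j := by
    intro j hj
    rw [QQ_compl]
    have h := cheb (N := N) (π := p2) (x := x) p20 p21 hx (by rw [e2]; exact hx2)
      (fun k => k ≤ j) (fun k hk => by
        rw [e2]
        have hk' : (k : ℝ) ≤ m₂ := by
          have : k ≤ m₂ := by omega
          exact_mod_cast this
        have : x ≤ (m₂ : ℝ) + x - k := by linarith
        exact pow_le_pow_left₀ hx.le this 2)
    linarith
  have hQ1 : ∀ j, m₁ ≤ j → QQ N p1 j ≤ 1 / 4 := by
    intro j hj
    have h := cheb (N := N) (π := p1) (x := x) p10 p11 hx (by rw [e1]; linarith)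
      (fun k => j < k) (fun k hk => by
        rw [e1]
        have hk' : (m₁ : ℝ) ≤ k := by
          have : m₁ ≤ k := by omega
          exact_mod_cast this
        have h3 : x ≤ k - ((m₁ : ℝ) - x) := by linarith
        have h4 := pow_le_pow_left₀ hx.le h3 2
        have h5 : ((m₁ : ℝ) - x - k) ^ 2 = (k - ((m₁ : ℝ) - x)) ^ 2 := by ring
        rw [h5]
        exact h4)
    exact h
  have hgp : ∀ π : ℝ, gp π f = um 0 f + ∑ j ∈ range N, (um (j + 1) f - um j f) * QQ N π j := by
    intro π
    rw [gp_formula]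
    exact abel N π (fun k => um k f)
  have hsum : ∀ a b : ℕ, a ≤ b → b ≤ N → um b f - um a f =
      ∑ j ∈ range N, (if a ≤ j ∧ j < b then um (j + 1) f - um j f else 0) := by
    intro a b hab hb
    rw [← Finset.sum_filter]
    have : (range N).filter (fun j => a ≤ j ∧ j < b) = Finset.Ico a b := by
      ext j
      rw [Finset.mem_filter, Finset.mem_range, Finset.mem_Ico]
      omega
    rw [this, Finset.sum_Ico_eq_sub _ hab, Finset.sum_range_sub (fun k => um k f),
      Finset.sum_range_sub (fun k => um k f)]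
    ring
  constructor
  · have h1 : gp p2 f - gp p1 f =
        ∑ j ∈ range N, (um (j + 1) f - um j f) * (QQ N p2 j - QQ N p1 j) := by
      rw [hgp, hgp, add_sub_add_left_eq_sub, ← Finset.sum_sub_distrib]
      exact Finset.sum_congr rfl fun j _ => by ring
    rw [h1, hsum m₁ m₂ h12 hm2'.le, Finset.mul_sum]
    refine Finset.sum_le_sum fun j hj => ?_
    rw [Finset.mem_range] at hj
    have h2 := hmono j hj
    have h3 := QQ_mono (n := n) p10 p12 p21 j
    split_ifs with h4
    · have h5 := hQ2 j h4.2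
      have h6 := hQ1 j h4.1
      nlinarith
    · have h7 : 0 ≤ QQ N p2 j - QQ N p1 j := by linarith
      positivity
  · intro hf0
    have hum0 : 0 ≤ um 0 f := by
      unfold um
      exact div_nonneg (Finset.sum_nonneg fun H _ => hf0 H) (by positivity)
    have h1 := hsum 0 m₂ (Nat.zero_le _) hm2'.le
    have h2 : 3 / 4 * (um m₂ f - um 0 f) ≤
        ∑ j ∈ range N, (um (j + 1) f - um j f) * QQ N p2 j := by
      rw [h1, Finset.mul_sum]
      refine Finset.sum_le_sum fun j hj => ?_
      rw [Finset.mem_range] at hj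
      have h2 := hmono j hj
      split_ifs with h4
      · have h5 := hQ2 j h4.2
        nlinarith
      · rw [mul_zero]
        exact mul_nonneg h2 (QQ_nonneg p20 p21 j)
    have h3 := hgp p2
    have h4 : 0 ≤ um m₂ f - um 0 f := by
      rw [h1]
      refine Finset.sum_nonneg fun j hj => ?_
      rw [Finset.mem_range] at hj
      split_ifs
      · exact hmono j hj
      · exact le_rfl
    linarith

end Pool.Agent.T6.H44.PA
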