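import Pool.Agent.T6.H44.PA.Defs

/-! Module TEL (helper24): growth of the truncated susceptibility. -/

set_option autoImplicit false

namespace Pool.Agent.T6.H44.PA

open Finset Classical Filter Topology
open Pool.Agent.H890.C (ex cl)

namespace ModTEL

section gen

variable {E : Type} [Fintype E] [DecidableEq E]

omit [Fintype E] in
theorem update_agree {ω η : E → Bool} {e : E} (h : ∀ e', e' ≠ e → ω e' = η e') (c : Bool) :
    Function.update ω e c = Function.update η e c := by
  funext e'
  by_cases he : e' = e
  · subst he
    rw [Function.update_self, Function.update_self]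
  · rw [Function.update_of_ne he, Function.update_of_ne he, h e' he]

theorem ex_split (p : E → ℝ) (e : E) (F : (E → Bool) → ℝ) :
    ex p F = p e * ex p (fun ω => F (Function.update ω e true)) +
      (1 - p e) * ex p (fun ω => F (Function.update ω e false)) := by
  have h : F = fun ω => (if ω e = true then 1 else 0) * F (Function.update ω e true) +
      (F (Function.update ω e false) -
        (if ω e = true then 1 else 0) * F (Function.update ω e false)) := by
    funext ω
    cases hω : ω e
    · have h1 : Function.update ω e false = ω := by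
        rw [← hω]
        exact Function.update_eq_self e ω
      rw [h1]
      simp
    · have h1 : Function.update ω e true = ω := by
        rw [← hω]
        exact Function.update_eq_self e ω
      rw [h1]
      simp
  have h2 : ex p F = ex p (fun ω => (if ω e = true then 1 else 0) * F (Function.update ω e true) +
      (F (Function.update ω e false) -
        (if ω e = true then 1 else 0) * F (Function.update ω e false))) := congrArg (ex p) h
  rw [h2, H890.C.ex_add, H890.C.ex_sub,
    H890.C.ex_coord_mul p e (fun ω => F (Function.update ω e true))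
      (fun ω η hh => by simp only [update_agree hh]),
    H890.C.ex_coord_mul p e (fun ω => F (Function.update ω e false))
      (fun ω η hh => by simp only [update_agree hh])]
  ring

theorem wt_split (r : E → ℝ) (e : E) (ω : E → Bool) :
    H890.C.wt r ω = (if ω e = true then r e else 1 - r e) *
      ∏ e' ∈ univ.erase e, (if ω e' = true then r e' else 1 - r e') := by
  unfold H890.C.wt
  rw [← Finset.mul_prod_erase univ _ (mem_univ e)]

theorem two_ex (r : E → ℝ) (e : E) (f : (E → Bool) → ℝ)
    (hf : ∀ ω b, f (Function.update ω e b) = f ω) :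
    2 * ex r f = ∑ ω, (∏ e' ∈ univ.erase e, (if ω e' = true then r e' else 1 - r e')) * f ω := by
  let σ : (E → Bool) → (E → Bool) := fun ω => Function.update ω e (!ω e)
  have hσ : Function.Involutive σ := by
    intro ω
    funext e'
    by_cases h : e' = e
    · subst h
      simp [σ]
    · simp [σ, h]
  have hc : ∑ ω, H890.C.wt r ω * f ω = ∑ ω, H890.C.wt r (σ ω) * f (σ ω) :=
    (Equiv.sum_comp (hσ.toPerm σ) (fun ω => H890.C.wt r ω * f ω)).symm
  have h1 : 2 * ex r f = ∑ ω, (H890.C.wt r ω * f ω + H890.C.wt r (σ ω) * f (σ ω)) := by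
    rw [Finset.sum_add_distrib, ← hc]
    unfold ex
    ring
  rw [h1]
  refine Finset.sum_congr rfl fun ω _ => ?_
  have h2 : f (σ ω) = f ω := hf ω _
  have h3 : ∏ e' ∈ univ.erase e, (if σ ω e' = true then r e' else 1 - r e') =
      ∏ e' ∈ univ.erase e, (if ω e' = true then r e' else 1 - r e') := by
    refine Finset.prod_congr rfl fun e' he' => ?_
    have h4 : σ ω e' = ω e' := Function.update_of_ne (Finset.ne_of_mem_erase he') _ _
    rw [h4]
  have h5 : σ ω e = !ω e := Function.update_self _ _ _
  rw [h2, wt_split r e ω, wt_split r e (σ ω), h3, h5]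
  cases ω e
  · simp
    ring
  · simp
    ring

theorem ex_congr_off {p q : E → ℝ} {e : E} (hpq : ∀ e', e' ≠ e → p e' = q e')
    {f : (E → Bool) → ℝ} (hf : ∀ ω b, f (Function.update ω e b) = f ω) : ex p f = ex q f := by
  have h1 := two_ex p e f hf
  have h2 := two_ex q e f hf
  have h3 : ∑ ω, (∏ e' ∈ univ.erase e, (if ω e' = true then p e' else 1 - p e')) * f ω =
      ∑ ω, (∏ e' ∈ univ.erase e, (if ω e' = true then q e' else 1 - q e')) * f ω := by
    refine Finset.sum_congr rfl fun ω _ => ?_
    congr 1
    refine Finset.prod_congr rfl fun e' he' => ?_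
    rw [hpq e' (Finset.ne_of_mem_erase he')]
  rw [h3] at h1
  linarith

end gen

section clu

variable {V : Type} [Fintype V] [DecidableEq V]

theorem incl {ω : Sym2 V → Bool} {a b v z : V}
    (h : H890.C.Rch (Function.update ω s(a, b) true) univ v z) :
    H890.C.Rch (Function.update ω s(a, b) false) univ v z ∨
      ((v ∈ cl (Function.update ω s(a, b) false) univ a ∪
        cl (Function.update ω s(a, b) false) univ b) ∧
      (z ∈ cl (Function.update ω s(a, b) false) univ a ∪
        cl (Function.update ω s(a, b) false) univ b)) := by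
  induction h with
  | refl hx => exact Or.inl (H890.C.Rch.refl hx)
  | @tail y z _ hz hne ho ih =>
    by_cases he : s(y, z) = s(a, b)
    · right
      have haU : a ∈ cl (Function.update ω s(a, b) false) univ a :=
        H890.C.mem_cl.2 (H890.C.Rch.refl (mem_univ a))
      have hbU : b ∈ cl (Function.update ω s(a, b) false) univ b :=
        H890.C.mem_cl.2 (H890.C.Rch.refl (mem_univ b))
      have hyz : y ∈ cl (Function.update ω s(a, b) false) univ a ∪
          cl (Function.update ω s(a, b) false) univ b ∧
          z ∈ cl (Function.update ω s(a, b) false) univ a ∪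
          cl (Function.update ω s(a, b) false) univ b := by
        rw [Sym2.eq_iff] at he
        rcases he with ⟨rfl, rfl⟩ | ⟨rfl, rfl⟩
        · exact ⟨mem_union_left _ haU, mem_union_right _ hbU⟩
        · exact ⟨mem_union_right _ hbU, mem_union_left _ haU⟩
      refine ⟨?_, hyz.2⟩
      rcases ih with ih | ih
      · rcases mem_union.1 hyz.1 with h1 | h1
        · exact mem_union_left _ (H890.C.mem_cl.2 ((H890.C.mem_cl.1 h1).trans ih.symm))
        · exact mem_union_right _ (H890.C.mem_cl.2 ((H890.C.mem_cl.1 h1).trans ih.symm))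
      · exact ih.1
    · have ho' : Function.update ω s(a, b) false s(y, z) = true := by
        rw [Function.update_of_ne he] at ho ⊢
        exact ho
      rcases ih with ih | ih
      · exact Or.inl (ih.tail hz hne ho')
      · right
        refine ⟨ih.1, ?_⟩
        rcases mem_union.1 ih.2 with h1 | h1
        · exact mem_union_left _ (H890.C.mem_cl.2 ((H890.C.mem_cl.1 h1).tail hz hne ho'))
        · exact mem_union_right _ (H890.C.mem_cl.2 ((H890.C.mem_cl.1 h1).tail hz hne ho'))

theorem num {a b K : ℝ} (ha : 0 ≤ a) (hb : 0 ≤ b) (hK : 0 ≤ K) :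
    (a + b) * min (a + b) K - a * min a K - b * min b K ≤ 2 * (min a K * min b K) := by
  rcases le_total a K with h1 | h1 <;> rcases le_total b K with h2 | h2 <;>
    rcases le_total (a + b) K with h3 | h3
  · rw [min_eq_left h1, min_eq_left h2, min_eq_left h3]
    nlinarith
  · rw [min_eq_left h1, min_eq_left h2, min_eq_right h3]
    nlinarith [mul_le_mul_of_nonneg_left h3 (add_nonneg ha hb)]
  · rw [min_eq_left h1, min_eq_right h2, min_eq_left h3]
    nlinarith [mul_nonneg ha hK, mul_nonneg hb hK, mul_nonneg ha hb]
  · rw [min_eq_left h1, min_eq_right h2, min_eq_right h3]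
    nlinarith [mul_nonneg ha hK, mul_nonneg hb hK, mul_nonneg ha ha]
  · rw [min_eq_right h1, min_eq_left h2, min_eq_left h3]
    nlinarith [mul_nonneg ha hK, mul_nonneg hb hK, mul_nonneg ha hb]
  · rw [min_eq_right h1, min_eq_left h2, min_eq_right h3]
    nlinarith [mul_nonneg ha hK, mul_nonneg hb hK, mul_nonneg hb hb]
  · rw [min_eq_right h1, min_eq_right h2, min_eq_left h3]
    nlinarith [mul_nonneg ha hK, mul_nonneg hb hK, mul_nonneg ha hb]
  · rw [min_eq_right h1, min_eq_right h2, min_eq_right h3]
    nlinarith [mul_nonneg hK hK]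

/-- the truncated susceptibility of the configuration -/
noncomputable def FK (K : ℝ) (ω : Sym2 V → Bool) : ℝ := ∑ v, min ((cl ω univ v).card : ℝ) K

theorem F_step {K : ℝ} (hK : 0 ≤ K) (ω : Sym2 V → Bool) (a b : V) :
    FK K (Function.update ω s(a, b) true) - FK K (Function.update ω s(a, b) false) ≤
      2 * (if b ∈ cl (Function.update ω s(a, b) false) univ a then 0 else
        min ((cl (Function.update ω s(a, b) false) univ a).card : ℝ) K *
        min ((cl (Function.update ω s(a, b) false) univ b).card : ℝ) K) := by
  have hincl : ∀ v z, H890.C.Rch (Function.update ω s(a, b) true) univ v z → _ :=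
    fun v z h => incl h
  set ω1 := Function.update ω s(a, b) true with hω1
  set ω0 := Function.update ω s(a, b) false with hω0
  set A := cl ω0 univ a with hA
  set B := cl ω0 univ b with hB
  have hclA : ∀ v ∈ A, cl ω0 univ v = A := fun v hv => H890.C.cl_eq_of_mem hv
  have hclB : ∀ v ∈ B, cl ω0 univ v = B := fun v hv => H890.C.cl_eq_of_mem hv
  have hself : ∀ v, v ∈ cl ω0 univ v := fun v => H890.C.mem_cl.2 (H890.C.Rch.refl (mem_univ v))
  have h2 : ∀ v ∈ (A ∪ B)ᶜ, min ((cl ω1 univ v).card : ℝ) K ≤ min ((cl ω0 univ v).card : ℝ) K := by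
    intro v hv
    refine min_le_min_right K ?_
    have : cl ω1 univ v ⊆ cl ω0 univ v := by
      intro z hz
      rcases hincl v z (H890.C.mem_cl.1 hz) with h | h
      · exact H890.C.mem_cl.2 h
      · exact absurd h.1 (Finset.mem_compl.1 hv)
    exact_mod_cast Finset.card_le_card this
  have h3 : ∀ v ∈ A ∪ B, min ((cl ω1 univ v).card : ℝ) K ≤ min ((A ∪ B).card : ℝ) K := by
    intro v hv
    refine min_le_min_right K ?_
    have : cl ω1 univ v ⊆ A ∪ B := by
      intro z hz
      rcases hincl v z (H890.C.mem_cl.1 hz) with h | h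
      · rcases mem_union.1 hv with h4 | h4
        · exact mem_union_left _ (by rw [← hclA v h4]; exact H890.C.mem_cl.2 h)
        · exact mem_union_right _ (by rw [← hclB v h4]; exact H890.C.mem_cl.2 h)
      · exact h.2
    exact_mod_cast Finset.card_le_card this
  have e1 : FK K ω1 = ∑ v ∈ A ∪ B, min ((cl ω1 univ v).card : ℝ) K +
      ∑ v ∈ (A ∪ B)ᶜ, min ((cl ω1 univ v).card : ℝ) K := (Finset.sum_add_sum_compl _ _).symm
  have e0 : FK K ω0 = ∑ v ∈ A ∪ B, min ((cl ω0 univ v).card : ℝ) K +
      ∑ v ∈ (A ∪ B)ᶜ, min ((cl ω0 univ v).card : ℝ) K := (Finset.sum_add_sum_compl _ _).symm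
  have s2 := Finset.sum_le_sum h2
  have s3 := Finset.sum_le_sum h3
  rw [Finset.sum_const, nsmul_eq_mul] at s3
  by_cases hb : b ∈ A
  · have hBA : B = A := hclA b hb
    rw [if_pos hb]
    rw [hBA, Finset.union_self] at s2 s3 e1 e0
    have h4 : ∑ v ∈ A, min ((cl ω0 univ v).card : ℝ) K = A.card * min (A.card : ℝ) K := by
      rw [← nsmul_eq_mul, ← Finset.sum_const]
      exact Finset.sum_congr rfl fun v hv => by rw [hclA v hv]
    linarith
  · rw [if_neg hb]
    have hd : Disjoint A B := by
      rw [Finset.disjoint_left]
      intro v hvA hvB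
      apply hb
      rw [← hclA v hvA, hclB v hvB]
      exact hself b
    have h4 : ∑ v ∈ A, min ((cl ω0 univ v).card : ℝ) K = A.card * min (A.card : ℝ) K := by
      rw [← nsmul_eq_mul, ← Finset.sum_const]
      exact Finset.sum_congr rfl fun v hv => by rw [hclA v hv]
    have h5 : ∑ v ∈ B, min ((cl ω0 univ v).card : ℝ) K = B.card * min (B.card : ℝ) K := by
      rw [← nsmul_eq_mul, ← Finset.sum_const]
      exact Finset.sum_congr rfl fun v hv => by rw [hclB v hv]
    have h6 : ((A ∪ B).card : ℝ) = A.card + B.card := by
      rw [Finset.card_union_of_disjoint hd]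
      push_cast
      ring
    rw [Finset.sum_union hd, h4, h5] at e0
    rw [h6] at s3
    have h7 := num (a := (A.card : ℝ)) (b := (B.card : ℝ)) (K := K) (by positivity)
      (by positivity) hK
    linarith

end clu

theorem mono_cl {n : ℕ} (K : ℝ) (v : Fin n) :
    Monotone (fun ω : Sym2 (Fin n) → Bool => min ((cl ω univ v).card : ℝ) K) := by
  intro ω η h
  refine min_le_min_right K ?_
  exact_mod_cast Finset.card_le_card (H890.C.cl_mono_cfg univ h v)

/-- the probabilities after the change on the edges in `s` -/
noncomputable def ps (n : ℕ) (π₁ π₂ : ℝ) (s : Finset (Sym2 (Fin n))) : Sym2 (Fin n) → ℝ :=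
  fun e => if e.IsDiag then 0 else if e ∈ s then π₂ else π₁

end ModTEL

open ModTEL in
theorem tel (hBR : StmBR) : StmTEL := by
  intro n π₁ π₂ K h0 h12 h21 hK
  have hT : ∀ π : ℝ, gp π (T (n := n) K) = ex (pc n π) (FK K) := by
    intro π
    unfold gp T FK
    congr 1
    funext ω
    refine Finset.sum_congr rfl fun v _ => ?_
    rw [hBR]
  rw [hT, hT]
  have hadm2 : H890.C.Adm (pc n π₂) := by
    intro e
    unfold pc
    split_ifs
    · exact ⟨le_rfl, zero_le_one⟩
    · exact ⟨h0.trans h12, h21⟩
  set χ : Fin n → ℝ := fun v => ex (pc n π₂) (fun ω => min ((cl ω univ v).card : ℝ) K) with hχ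
  have hχ0 : ∀ v, 0 ≤ χ v := fun v =>
    H890.C.ex_nonneg hadm2 fun ω => le_min (by positivity) hK
  have hsumχ : ex (pc n π₂) (FK K) = ∑ v, χ v := by
    unfold FK
    rw [H890.C.ex_sum]
  let c : Sym2 (Fin n) → ℝ := Sym2.lift ⟨fun a b => χ a * χ b, fun a b => mul_comm _ _⟩
  have hc : ∀ a b, c s(a, b) = χ a * χ b := fun a b => rfl
  have hc0 : ∀ e, 0 ≤ c e := by
    intro e
    induction e using Sym2.ind with
    | _ a b => exact mul_nonneg (hχ0 a) (hχ0 b)
  -- one edge
  have hedge : ∀ (s : Finset (Sym2 (Fin n))) (a b : Fin n), a ≠ b → s(a, b) ∉ s →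
      ex (ps n π₁ π₂ (insert s(a, b) s)) (FK K) - ex (ps n π₁ π₂ s) (FK K) ≤
        (π₂ - π₁) * (2 * c s(a, b)) := by
    intro s a b hab hs
    have hnd : ¬ (s(a, b) : Sym2 (Fin n)).IsDiag := by
      rw [Sym2.mk_isDiag_iff]
      exact hab
    set e := s(a, b) with he
    have hoff : ∀ e', e' ≠ e → ps n π₁ π₂ (insert e s) e' = ps n π₁ π₂ s e' := by
      intro e' he'
      unfold ps
      simp only [Finset.mem_insert, he', false_or]
    have hv1 : ps n π₁ π₂ (insert e s) e = π₂ := by
      unfold ps
      rw [if_neg hnd, if_pos (Finset.mem_insert_self _ _)]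
    have hv0 : ps n π₁ π₂ s e = π₁ := by
      unfold ps
      rw [if_neg hnd, if_neg hs]
    have hadm : H890.C.Adm (ps n π₁ π₂ s) := by
      intro e'
      unfold ps
      split_ifs
      · exact ⟨le_rfl, zero_le_one⟩
      · exact ⟨h0.trans h12, h21⟩
      · exact ⟨h0, h12.trans h21⟩
    have g1 := ex_split (ps n π₁ π₂ (insert e s)) e (FK K)
    have g0 := ex_split (ps n π₁ π₂ s) e (FK K)
    rw [hv1, ex_congr_off (q := ps n π₁ π₂ s) hoff
      (f := fun ω => FK K (Function.update ω e true)) (fun ω b => by
        simp only [Function.update_idem]),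
      ex_congr_off (q := ps n π₁ π₂ s) hoff
      (f := fun ω => FK K (Function.update ω e false)) (fun ω b => by
        simp only [Function.update_idem])] at g1
    rw [hv0] at g0
    have g2 : ex (ps n π₁ π₂ (insert e s)) (FK K) - ex (ps n π₁ π₂ s) (FK K) =
        (π₂ - π₁) * ex (ps n π₁ π₂ s) (fun ω => FK K (Function.update ω e true) -
          FK K (Function.update ω e false)) := by
      rw [H890.C.ex_sub, g1, g0]
      ring
    rw [g2]
    refine mul_le_mul_of_nonneg_left ?_ (sub_nonneg.2 h12)
    -- the bound by the product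
    set g : (Sym2 (Fin n) → Bool) → ℝ := fun ω => if b ∈ cl ω univ a then 0 else
      min ((cl ω univ a).card : ℝ) K * min ((cl ω univ b).card : ℝ) K with hg
    have g3 : ex (ps n π₁ π₂ s) (fun ω => FK K (Function.update ω e true) -
          FK K (Function.update ω e false)) ≤
        2 * ex (ps n π₁ π₂ s) (fun ω => g (Function.update ω e false)) := by
      rw [← H890.C.ex_smul]
      exact H890.C.ex_mono hadm fun ω => F_step hK ω a b
    refine g3.trans (mul_le_mul_of_nonneg_left ?_ (by norm_num))
    set q : Sym2 (Fin n) → ℝ := Function.update (ps n π₁ π₂ s) e 0 with hq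
    have g4 : ex (ps n π₁ π₂ s) (fun ω => g (Function.update ω e false)) =
        ex q (fun ω => g (Function.update ω e false)) := by
      refine ex_congr_off (e := e) (fun e' he' => ?_) (fun ω b => by
        simp only [Function.update_idem])
      rw [hq, Function.update_of_ne he']
    have g5 : ex q g = ex q (fun ω => g (Function.update ω e false)) := by
      have := ex_split q e g
      rw [hq, Function.update_self, zero_mul, zero_add, sub_zero, one_mul] at this
      exact this
    rw [g4, ← g5]
    have hqadm : H890.C.Adm q := by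
      intro e'
      rw [hq]
      by_cases he' : e' = e
      · rw [he', Function.update_self]
        exact ⟨le_rfl, zero_le_one⟩
      · rw [Function.update_of_ne he']
        exact hadm e'
    have hqle : ∀ e', q e' ≤ pc n π₂ e' := by
      intro e'
      rw [hq]
      by_cases he' : e' = e
      · rw [he', Function.update_self]
        exact (hadm2 e).1
      · rw [Function.update_of_ne he']
        unfold ps pc
        split_ifs
        · exact le_rfl
        · exact le_rfl
        · exact h12
    have g6 := H890.C.decouple hqadm univ a b (fun S : Finset (Fin n) => min (S.card : ℝ) K)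
      (fun S : Finset (Fin n) => min (S.card : ℝ) K) (fun S => le_min (by positivity) hK)
      (fun S => le_min (by positivity) hK) (fun S S' h => min_le_min_right K (by
        exact_mod_cast Finset.card_le_card h))
    have g7 := H890.C.ex_le_of_le hqadm hadm2 hqle (mono_cl K a)
    have g8 := H890.C.ex_le_of_le hqadm hadm2 hqle (mono_cl K b)
    have g9 : 0 ≤ ex q (fun ω => min ((cl ω univ b).card : ℝ) K) :=
      H890.C.ex_nonneg hqadm fun ω => le_min (by positivity) hK
    calc ex q g ≤ ex q (fun ω => min ((cl ω univ a).card : ℝ) K) *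
          ex q (fun ω => min ((cl ω univ b).card : ℝ) K) := g6
      _ ≤ χ a * χ b := mul_le_mul g7 g8 g9 (hχ0 a)
      _ = c e := (hc a b).symm
  -- telescoping
  have htel : ∀ s : Finset (Sym2 (Fin n)), ex (ps n π₁ π₂ s) (FK K) ≤
      ex (pc n π₁) (FK K) + (π₂ - π₁) * ∑ e ∈ s, (if e.IsDiag then 0 else 2 * c e) := by
    intro s
    induction s using Finset.induction_on with
    | empty =>
      have : ps n π₁ π₂ ∅ = pc n π₁ := by
        funext e
        unfold ps pc
        simp
      rw [this, Finset.sum_empty, mul_zero, add_zero]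
    | insert e s he ih =>
      rw [Finset.sum_insert he]
      by_cases hd : e.IsDiag
      · have : ps n π₁ π₂ (insert e s) = ps n π₁ π₂ s := by
          funext e'
          unfold ps
          by_cases h : e' = e
          · rw [h, if_pos hd, if_pos hd]
          · simp only [Finset.mem_insert, h, false_or]
        rw [this, if_pos hd, zero_add]
        exact ih
      · rw [if_neg hd]
        have h1 : ex (ps n π₁ π₂ (insert e s)) (FK K) - ex (ps n π₁ π₂ s) (FK K) ≤
            (π₂ - π₁) * (2 * c e) := by
          induction e using Sym2.ind with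
          | _ a b =>
            refine hedge s a b ?_ he
            rw [Sym2.mk_isDiag_iff] at hd
            exact hd
        rw [mul_add]
        linarith
  have h1 := htel univ
  have h2 : ps n π₁ π₂ univ = pc n π₂ := by
    funext e
    unfold ps pc
    simp
  rw [h2] at h1
  have h3 : ∑ e : Sym2 (Fin n), (if e.IsDiag then 0 else 2 * c e) ≤ (∑ v, χ v) ^ 2 := by
    have h4 : (∑ v, χ v) ^ 2 = ∑ x : Fin n × Fin n, c s(x.1, x.2) := by
      rw [sq, Finset.sum_mul_sum, Fintype.sum_prod_type]
      rfl
    have h5 : ∑ x : Fin n × Fin n, c s(x.1, x.2) =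
        ∑ e : Sym2 (Fin n), ∑ x ∈ univ.filter (fun x : Fin n × Fin n => s(x.1, x.2) = e),
          c s(x.1, x.2) := (Finset.sum_fiberwise _ _ _).symm
    rw [h4, h5]
    refine Finset.sum_le_sum fun e _ => ?_
    by_cases hd : e.IsDiag
    · rw [if_pos hd]
      exact Finset.sum_nonneg fun x _ => hc0 _
    · rw [if_neg hd]
      have h6 : ∑ x ∈ univ.filter (fun x : Fin n × Fin n => s(x.1, x.2) = e), c s(x.1, x.2) =
          ((univ.filter (fun x : Fin n × Fin n => s(x.1, x.2) = e)).card : ℝ) * c e := by
        rw [← nsmul_eq_mul, ← Finset.sum_const]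
        exact Finset.sum_congr rfl fun x hx => by rw [(Finset.mem_filter.1 hx).2]
      rw [h6]
      refine mul_le_mul_of_nonneg_right ?_ (hc0 e)
      have h7 : 2 ≤ (univ.filter (fun x : Fin n × Fin n => s(x.1, x.2) = e)).card := by
        induction e using Sym2.ind with
        | _ a b =>
          rw [Sym2.mk_isDiag_iff] at hd
          have hab : a ≠ b := hd
          have h8 : ({(a, b), (b, a)} : Finset (Fin n × Fin n)) ⊆
              univ.filter (fun x : Fin n × Fin n => s(x.1, x.2) = s(a, b)) := by
            intro x hx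
            rw [Finset.mem_insert, Finset.mem_singleton] at hx
            refine Finset.mem_filter.2 ⟨mem_univ _, ?_⟩
            rcases hx with rfl | rfl
            · rfl
            · exact Sym2.eq_swap
          have h9 : ({(a, b), (b, a)} : Finset (Fin n × Fin n)).card = 2 := by
            apply Finset.card_pair
            intro h
            exact hab (congrArg Prod.fst h)
          rw [← h9]
          exact Finset.card_le_card h8
      exact_mod_cast h7
  rw [hsumχ] at h1 ⊢
  have h4 := mul_le_mul_of_nonneg_left h3 (sub_nonneg.2 h12)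
  linarith

end Pool.Agent.T6.H44.PA
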