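import Pool.Agent.T6.H44.PA.Defs

set_option autoImplicit false

namespace Pool.Agent.T6.H44.PA

open Finset Classical Filter Topology

namespace ModTVA

/-! ### inequalities -/

/-- the log-sum inequality -/
lemma log_sum {ι : Type} (s : Finset ι) (hs : s.Nonempty) (a b : ι → ℝ) (ha : ∀ i ∈ s, 0 < a i)
    (hb : ∀ i ∈ s, 0 < b i) :
    (∑ i ∈ s, a i) * Real.log ((∑ i ∈ s, a i) / ∑ i ∈ s, b i) ≤
      ∑ i ∈ s, a i * Real.log (a i / b i) := by
  have hA : 0 < ∑ i ∈ s, a i := Finset.sum_pos ha hs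
  have hB : 0 < ∑ i ∈ s, b i := Finset.sum_pos hb hs
  obtain ⟨S, hS⟩ : ∃ S, S = (∑ i ∈ s, a i) / ∑ i ∈ s, b i := ⟨_, rfl⟩
  have hS0 : 0 < S := by rw [hS]; positivity
  have h1 : ∀ i ∈ s, a i - S * b i ≤ a i * Real.log (a i / b i) - a i * Real.log S := by
    intro i hi
    have hai := ha i hi
    have hbi := hb i hi
    have h2 : Real.log (S * b i / a i) ≤ S * b i / a i - 1 :=
      Real.log_le_sub_one_of_pos (by positivity)
    have h3 : Real.log (S * b i / a i) = Real.log S - Real.log (a i / b i) := by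
      rw [Real.log_div (by positivity) hai.ne', Real.log_mul hS0.ne' hbi.ne',
        Real.log_div hai.ne' hbi.ne']
      ring
    rw [h3] at h2
    have h4 := mul_le_mul_of_nonneg_left h2 hai.le
    have h5 : a i * (S * b i / a i - 1) = S * b i - a i := by field_simp
    rw [h5] at h4
    linarith
  have h6 := Finset.sum_le_sum h1
  rw [Finset.sum_sub_distrib, Finset.sum_sub_distrib, ← Finset.mul_sum, ← Finset.sum_mul] at h6
  have h7 : S * ∑ i ∈ s, b i = ∑ i ∈ s, a i := by
    rw [hS, div_mul_cancel₀ _ hB.ne']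
  rw [h7, sub_self] at h6
  rw [← hS]
  linarith

/-- a weak form of the inequality of Pinsker -/
lemma pinsker {ι : Type} (s : Finset ι) (p q : ι → ℝ) (hp : ∀ i ∈ s, 0 < p i)
    (hq : ∀ i ∈ s, 0 < q i) (hp1 : ∑ i ∈ s, p i = 1) (hq1 : ∑ i ∈ s, q i = 1) {K : ℝ}
    (hK : ∑ i ∈ s, q i * Real.log (q i / p i) ≤ K) :
    ∑ i ∈ s, |p i - q i| ≤ 2 * Real.sqrt K := by
  obtain ⟨A, hA⟩ : ∃ A, A = ∑ i ∈ s, Real.sqrt (p i) * Real.sqrt (q i) := ⟨_, rfl⟩
  have h1 : 2 - 2 * A ≤ K := by
    refine le_trans ?_ hK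
    have h2 : ∀ i ∈ s, 2 * q i - 2 * (Real.sqrt (p i) * Real.sqrt (q i)) ≤
        q i * Real.log (q i / p i) := by
      intro i hi
      have hpi := hp i hi
      have hqi := hq i hi
      have hsp : 0 < Real.sqrt (p i) := Real.sqrt_pos.2 hpi
      have hsq : 0 < Real.sqrt (q i) := Real.sqrt_pos.2 hqi
      have h3 : Real.log (Real.sqrt (p i) / Real.sqrt (q i)) ≤
          Real.sqrt (p i) / Real.sqrt (q i) - 1 := Real.log_le_sub_one_of_pos (by positivity)
      have h4 : Real.log (q i / p i) = -2 * Real.log (Real.sqrt (p i) / Real.sqrt (q i)) := by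
        rw [Real.log_div hsp.ne' hsq.ne', Real.log_sqrt hpi.le, Real.log_sqrt hqi.le,
          Real.log_div hqi.ne' hpi.ne']
        ring
      rw [h4]
      have h5 := mul_le_mul_of_nonneg_left h3 (by positivity : 0 ≤ 2 * q i)
      have h6 : 2 * q i * (Real.sqrt (p i) / Real.sqrt (q i) - 1) =
          2 * (Real.sqrt (p i) * Real.sqrt (q i)) - 2 * q i := by
        have h7 : q i = Real.sqrt (q i) * Real.sqrt (q i) := (Real.mul_self_sqrt hqi.le).symm
        have h8 : 2 * q i * (Real.sqrt (p i) / Real.sqrt (q i)) =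
            2 * (Real.sqrt (p i) * Real.sqrt (q i)) := by
          nth_rewrite 1 [h7]
          field_simp
        linarith
      rw [h6] at h5
      linarith
    have h9 := Finset.sum_le_sum h2
    rw [Finset.sum_sub_distrib, ← Finset.mul_sum, ← Finset.mul_sum, hq1, ← hA] at h9
    linarith
  have hA1 : A ≤ 1 := by
    have h2 : ∀ i ∈ s, Real.sqrt (p i) * Real.sqrt (q i) ≤ (p i + q i) / 2 := by
      intro i hi
      have e1 := Real.sq_sqrt (hp i hi).le
      have e2 := Real.sq_sqrt (hq i hi).le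
      nlinarith [sq_nonneg (Real.sqrt (p i) - Real.sqrt (q i))]
    have h3 := Finset.sum_le_sum h2
    rw [← Finset.sum_div, Finset.sum_add_distrib, hp1, hq1, ← hA] at h3
    linarith
  have hK0 : 0 ≤ K := by linarith
  have h2 : ∀ i ∈ s, |p i - q i| = |Real.sqrt (p i) - Real.sqrt (q i)| *
      (Real.sqrt (p i) + Real.sqrt (q i)) := by
    intro i hi
    have e1 := Real.sq_sqrt (hp i hi).le
    have e2 := Real.sq_sqrt (hq i hi).le
    rw [← abs_of_nonneg (show 0 ≤ Real.sqrt (p i) + Real.sqrt (q i) by positivity), ← abs_mul]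
    congr 1
    nlinarith
  rw [Finset.sum_congr rfl h2]
  have h3 := Finset.sum_mul_sq_le_sq_mul_sq s (fun i => |Real.sqrt (p i) - Real.sqrt (q i)|)
    (fun i => Real.sqrt (p i) + Real.sqrt (q i))
  have h4 : ∑ i ∈ s, |Real.sqrt (p i) - Real.sqrt (q i)| ^ 2 = 2 - 2 * A := by
    have : ∀ i ∈ s, |Real.sqrt (p i) - Real.sqrt (q i)| ^ 2 =
        p i + q i - 2 * (Real.sqrt (p i) * Real.sqrt (q i)) := by
      intro i hi
      have e1 := Real.sq_sqrt (hp i hi).le
      have e2 := Real.sq_sqrt (hq i hi).le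
      rw [sq_abs]
      nlinarith
    rw [Finset.sum_congr rfl this, Finset.sum_sub_distrib, Finset.sum_add_distrib, hp1, hq1,
      ← Finset.mul_sum, ← hA]
    ring
  have h5 : ∑ i ∈ s, (Real.sqrt (p i) + Real.sqrt (q i)) ^ 2 = 2 + 2 * A := by
    have : ∀ i ∈ s, (Real.sqrt (p i) + Real.sqrt (q i)) ^ 2 =
        p i + q i + 2 * (Real.sqrt (p i) * Real.sqrt (q i)) := by
      intro i hi
      have e1 := Real.sq_sqrt (hp i hi).le
      have e2 := Real.sq_sqrt (hq i hi).le
      nlinarith
    rw [Finset.sum_congr rfl this, Finset.sum_add_distrib, Finset.sum_add_distrib, hp1, hq1,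
      ← Finset.mul_sum, ← hA]
    ring
  rw [h4, h5] at h3
  apply abs_le_of_sq_le_sq' _ (by positivity) |>.2
  rw [mul_pow, Real.sq_sqrt hK0]
  refine h3.trans ?_
  nlinarith

/-! ### the exchange of sums -/

lemma exchange {V : Type} [DecidableEq V] (E : Finset V) (t : ℕ) (F : Finset V → V → ℝ) :
    ∑ G ∈ E.powersetCard (t + 1), ∑ e ∈ G, F (G.erase e) e =
      ∑ H ∈ E.powersetCard t, ∑ e ∈ E \ H, F H e := by
  rw [Finset.sum_sigma', Finset.sum_sigma']
  refine Finset.sum_bij' (fun x _ => ⟨x.1.erase x.2, x.2⟩) (fun x _ => ⟨insert x.2 x.1, x.2⟩)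
    ?_ ?_ ?_ ?_ ?_
  · rintro ⟨G, e⟩ h
    simp only [Finset.mem_sigma, Finset.mem_powersetCard, Finset.mem_sdiff] at h ⊢
    obtain ⟨⟨hG, hc⟩, he⟩ := h
    refine ⟨⟨(Finset.erase_subset _ _).trans hG, ?_⟩, hG he, Finset.notMem_erase _ _⟩
    rw [Finset.card_erase_of_mem he, hc]
    rfl
  · rintro ⟨H, e⟩ h
    simp only [Finset.mem_sigma, Finset.mem_powersetCard, Finset.mem_sdiff] at h ⊢
    obtain ⟨⟨hH, hc⟩, he, he'⟩ := h
    refine ⟨⟨Finset.insert_subset he hH, ?_⟩, Finset.mem_insert_self _ _⟩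
    rw [Finset.card_insert_of_notMem he', hc]
  · rintro ⟨G, e⟩ h
    simp only [Finset.mem_sigma] at h
    simp only [Finset.insert_erase h.2]
  · rintro ⟨H, e⟩ h
    simp only [Finset.mem_sigma, Finset.mem_sdiff] at h
    simp only [Finset.erase_insert h.2.2]
  · rintro ⟨G, e⟩ _
    rfl

/-! ### the laws -/

variable {n : ℕ} (w : Finset (Sym2 (Fin n)) → Sym2 (Fin n) → ℝ)

lemma law_zero_of_ne (t : ℕ) (H : Finset (Sym2 (Fin n))) (h : law w t H ≠ 0) :
    H ∈ (allE n).powersetCard t := by
  induction t generalizing H with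
  | zero =>
    unfold law at h
    have : H = ∅ := by
      by_contra hH
      rw [if_neg hH] at h
      exact h rfl
    rw [this]
    simp
  | succ t ih =>
    unfold law at h
    obtain ⟨e, he, h1⟩ := Finset.exists_ne_zero_of_sum_ne_zero h
    have h2 := ih _ (left_ne_zero_of_mul h1)
    rw [Finset.mem_powersetCard] at h2 ⊢
    rw [Finset.mem_inter] at he
    refine ⟨?_, ?_⟩
    · rw [← Finset.insert_erase he.1]
      exact Finset.insert_subset he.2 h2.1
    · rw [← Finset.card_erase_add_one he.1, h2.2]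

lemma law_succ (t : ℕ) (G : Finset (Sym2 (Fin n))) (hG : G ⊆ allE n) :
    law w (t + 1) G = ∑ e ∈ G, law w t (G.erase e) *
      (w (G.erase e) e / ∑ f ∈ allE n \ G.erase e, w (G.erase e) f) := by
  rw [law, Finset.inter_eq_left.2 hG]

lemma W_pos (hw : ∀ H e, 0 < w H e) (G : Finset (Sym2 (Fin n))) (hG : G ⊆ allE n)
    {e : Sym2 (Fin n)} (he : e ∈ G) : 0 < ∑ f ∈ allE n \ G.erase e, w (G.erase e) f := by
  apply Finset.sum_pos (fun f _ => hw _ _)
  exact ⟨e, Finset.mem_sdiff.2 ⟨hG he, Finset.notMem_erase _ _⟩⟩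

lemma law_pos (hw : ∀ H e, 0 < w H e) (t : ℕ) (H : Finset (Sym2 (Fin n)))
    (h : H ∈ (allE n).powersetCard t) : 0 < law w t H := by
  induction t generalizing H with
  | zero =>
    rw [Finset.mem_powersetCard, Finset.card_eq_zero] at h
    unfold law
    rw [if_pos h.2]
    exact one_pos
  | succ t ih =>
    rw [Finset.mem_powersetCard] at h
    rw [law_succ w t H h.1]
    apply Finset.sum_pos
    · intro e he
      apply mul_pos
      · apply ih
        rw [Finset.mem_powersetCard]
        refine ⟨(Finset.erase_subset _ _).trans h.1, ?_⟩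
        rw [Finset.card_erase_of_mem he, h.2]
        rfl
      · exact div_pos (hw _ _) (W_pos w hw H h.1 he)
    · rw [← Finset.card_pos, h.2]
      omega

lemma law_sum (hw : ∀ H e, 0 < w H e) (t : ℕ) (ht : t ≤ (allE n).card) :
    ∑ H ∈ (allE n).powersetCard t, law w t H = 1 := by
  induction t with
  | zero =>
    rw [Finset.powersetCard_zero, Finset.sum_singleton]
    unfold law
    rw [if_pos rfl]
  | succ t ih =>
    have h1 : ∑ H ∈ (allE n).powersetCard (t + 1), law w (t + 1) H =
        ∑ H ∈ (allE n).powersetCard (t + 1), ∑ e ∈ H,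
          (fun (H : Finset (Sym2 (Fin n))) e => law w t H * (w H e / ∑ f ∈ allE n \ H, w H f))
            (H.erase e) e := by
      apply Finset.sum_congr rfl
      intro H hH
      rw [Finset.mem_powersetCard] at hH
      exact law_succ w t H hH.1
    rw [h1, exchange (allE n) t (fun (H : Finset (Sym2 (Fin n))) e =>
      law w t H * (w H e / ∑ f ∈ allE n \ H, w H f))]
    rw [← ih (by omega)]
    apply Finset.sum_congr rfl
    intro H hH
    rw [Finset.mem_powersetCard] at hH
    have hne : (allE n \ H).Nonempty := by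
      rw [← Finset.card_pos, Finset.card_sdiff_of_subset hH.1, hH.2]
      omega
    have hW : 0 < ∑ f ∈ allE n \ H, w H f := Finset.sum_pos (fun f _ => hw _ _) hne
    rw [← Finset.mul_sum, ← Finset.sum_div, div_self hW.ne', mul_one]

/-- the relative entropy -/
noncomputable def KL (t : ℕ) : ℝ :=
  ∑ H ∈ (allE n).powersetCard t, 1 / ((allE n).card.choose t : ℝ) *
    Real.log ((1 / ((allE n).card.choose t : ℝ)) / law w t H)

lemma KL_zero : KL w 0 = 0 := by
  unfold KL
  rw [Finset.powersetCard_zero, Finset.sum_singleton]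
  unfold law
  simp

lemma KL_succ (hw : ∀ H e, 0 < w H e) (D : Finset (Sym2 (Fin n)) → ℝ) (t : ℕ)
    (ht : t < (allE n).card)
    (hD : ∀ H : Finset (Sym2 (Fin n)), H ⊆ allE n → H.card = t →
      Real.log ((∑ e ∈ allE n \ H, w H e) / ((allE n).card - H.card : ℝ))
        - (∑ e ∈ allE n \ H, Real.log (w H e)) / ((allE n).card - H.card : ℝ) ≤ D H) :
    KL w (t + 1) ≤ KL w t + um t D := by
  obtain ⟨N, hN⟩ : ∃ N : ℝ, N = ((allE n).card : ℝ) - t := ⟨_, rfl⟩
  have hN0 : 0 < N := by
    rw [hN]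
    have : (t : ℝ) < (allE n).card := by exact_mod_cast ht
    linarith
  obtain ⟨q, hq⟩ : ∃ q : ℝ, q = 1 / ((allE n).card.choose t : ℝ) := ⟨_, rfl⟩
  have hch : 0 < ((allE n).card.choose t : ℝ) := by
    exact_mod_cast Nat.choose_pos ht.le
  have hch' : 0 < ((allE n).card.choose (t + 1) : ℝ) := by
    exact_mod_cast Nat.choose_pos (Nat.succ_le_of_lt ht)
  have hq0 : 0 < q := by rw [hq]; positivity
  have hrel : ((t + 1 : ℕ) : ℝ) * (q / N) = 1 / ((allE n).card.choose (t + 1) : ℝ) := by
    have h1 := Nat.choose_succ_right_eq (allE n).card t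
    have h2 : ((allE n).card.choose (t + 1) : ℝ) * ((t + 1 : ℕ) : ℝ) =
        ((allE n).card.choose t : ℝ) * N := by
      rw [hN, ← Nat.cast_sub ht.le]
      exact_mod_cast h1
    rw [hq, div_div, eq_div_iff hch'.ne', mul_one_div, div_mul_eq_mul_div, ← h2]
    field_simp
  have hmem : ∀ G ∈ (allE n).powersetCard (t + 1), ∀ e ∈ G,
      G.erase e ∈ (allE n).powersetCard t := by
    intro G hG e he
    rw [Finset.mem_powersetCard] at hG ⊢
    refine ⟨(Finset.erase_subset _ _).trans hG.1, ?_⟩
    rw [Finset.card_erase_of_mem he, hG.2]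
    rfl
  -- one graph
  have hG1 : ∀ G ∈ (allE n).powersetCard (t + 1),
      1 / ((allE n).card.choose (t + 1) : ℝ) *
        Real.log ((1 / ((allE n).card.choose (t + 1) : ℝ)) / law w (t + 1) G) ≤
      ∑ e ∈ G, (fun (H : Finset (Sym2 (Fin n))) e => q / N * (Real.log (q / law w t H) +
        Real.log ((∑ f ∈ allE n \ H, w H f) / N) - Real.log (w H e))) (G.erase e) e := by
    intro G hG
    have hG' := Finset.mem_powersetCard.1 hG
    have hcard : ∑ _e ∈ G, q / N = 1 / ((allE n).card.choose (t + 1) : ℝ) := by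
      rw [Finset.sum_const, hG'.2, nsmul_eq_mul, hrel]
    rw [← hcard, law_succ w t G hG'.1]
    refine (log_sum G ?_ (fun _ => q / N) _ (fun _ _ => by positivity) ?_).trans (le_of_eq ?_)
    · rw [← Finset.card_pos, hG'.2]
      omega
    · intro e he
      exact mul_pos (law_pos w hw t _ (hmem G hG e he)) (div_pos (hw _ _) (W_pos w hw G hG'.1 he))
    · apply Finset.sum_congr rfl
      intro e he
      have hP := law_pos w hw t _ (hmem G hG e he)
      have hW := W_pos w hw G hG'.1 he
      have hwe := hw (G.erase e) e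
      simp only
      congr 1
      rw [Real.log_div (by positivity) (by positivity), Real.log_div hq0.ne' hN0.ne',
        Real.log_mul hP.ne' (by positivity), Real.log_div hwe.ne' hW.ne',
        Real.log_div hq0.ne' hP.ne', Real.log_div hW.ne' hN0.ne']
      ring
  have hsum := Finset.sum_le_sum hG1
  rw [exchange (allE n) t (fun (H : Finset (Sym2 (Fin n))) e => q / N * (Real.log (q / law w t H) +
        Real.log ((∑ f ∈ allE n \ H, w H f) / N) - Real.log (w H e)))] at hsum
  refine (le_trans (le_of_eq rfl) hsum).trans ?_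
  -- the sum over `H`
  unfold KL um
  rw [Finset.sum_div, ← Finset.sum_add_distrib]
  apply Finset.sum_le_sum
  intro H hH
  have hH' := Finset.mem_powersetCard.1 hH
  have hcardN : ((allE n \ H).card : ℝ) = N := by
    rw [Finset.card_sdiff_of_subset hH'.1, hH'.2, hN, Nat.cast_sub ht.le]
  have h1 : ∑ e ∈ allE n \ H, q / N * (Real.log (q / law w t H) +
        Real.log ((∑ f ∈ allE n \ H, w H f) / N) - Real.log (w H e)) =
      q * Real.log (q / law w t H) + q * (Real.log ((∑ f ∈ allE n \ H, w H f) / N) -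
        (∑ e ∈ allE n \ H, Real.log (w H e)) / N) := by
    rw [← Finset.mul_sum, Finset.sum_sub_distrib, Finset.sum_const, nsmul_eq_mul, hcardN]
    field_simp
    ring
  rw [h1, ← hq]
  have h2 := hD H hH'.1 hH'.2
  rw [hH'.2, ← hN] at h2
  have h3 := mul_le_mul_of_nonneg_left h2 hq0.le
  have h4 : q * D H = D H / ((allE n).card.choose t : ℝ) := by
    rw [hq]
    ring
  rw [← h4]
  linarith

end ModTVA

open ModTVA in
theorem tva : StmTVA := by
  intro n m w D hw hm hD
  have hKL : ∀ k, k ≤ m → KL w k ≤ ∑ t ∈ range k, um t D := by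
    intro k hk
    induction k with
    | zero => rw [KL_zero, Finset.sum_range_zero]
    | succ k ih =>
      rw [Finset.sum_range_succ]
      have h1 := KL_succ w hw D k (by omega) (fun H hH hc => hD H hH (by omega))
      have h2 := ih (by omega)
      linarith
  have hch : 0 < ((allE n).card.choose m : ℝ) := by
    exact_mod_cast Nat.choose_pos hm
  have h1 : ∑ H : Finset (Sym2 (Fin n)), |law w m H - er m H| =
      ∑ H ∈ (allE n).powersetCard m, |law w m H - 1 / ((allE n).card.choose m : ℝ)| := by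
    rw [← Finset.sum_subset (Finset.subset_univ ((allE n).powersetCard m))]
    · apply Finset.sum_congr rfl
      intro H hH
      unfold er
      rw [if_pos (Finset.mem_powersetCard.1 hH)]
    · intro H _ hH
      have h2 : law w m H = 0 := by
        by_contra h
        exact hH (law_zero_of_ne w m H h)
      have h3 : er m H = 0 := by
        unfold er
        rw [if_neg]
        intro h
        exact hH (Finset.mem_powersetCard.2 h)
      rw [h2, h3, sub_zero, abs_zero]
  rw [h1]
  refine pinsker _ (law w m) (fun _ => 1 / ((allE n).card.choose m : ℝ)) ?_ ?_ ?_ ?_ (hKL m le_rfl)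
  · exact fun H hH => law_pos w hw m H hH
  · intro H _
    positivity
  · exact law_sum w hw m hm
  · rw [Finset.sum_const, Finset.card_powersetCard, nsmul_eq_mul]
    field_simp

end Pool.Agent.T6.H44.PA
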