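import Pool.Agent.T6.H44.PA.Defs

/-! TVB: total variation distance of the preferential attachment graph and the uniform graph
(helper22 for helper44). -/

set_option autoImplicit false

namespace Pool.Agent.T6.H44.PA

open Finset Classical Filter Topology
open Pool.Agent.H890.C (ex cl)

namespace ModTVB

variable {n : ℕ}

theorem mem_allE (e : Sym2 (Fin n)) : e ∈ allE n ↔ ¬ e.IsDiag := by simp [allE]

theorem card_allE (n : ℕ) : (allE n).card = n.choose 2 := by
  have h := Sym2.card_subtype_not_diag (α := Fin n)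
  rw [Fintype.card_fin] at h
  rw [← h, Fintype.card_subtype]
  unfold allE
  congr

theorem filt (a b : Fin n) : univ.filter (fun v => v ∈ (s(a, b) : Sym2 (Fin n))) = {a, b} := by
  ext v; simp [Sym2.mem_iff]

theorem exists_pair (e : Sym2 (Fin n)) (he : e ∈ allE n) : ∃ a b : Fin n, a ≠ b ∧ e = s(a, b) := by
  induction e using Sym2.ind with
  | _ a b =>
    rw [mem_allE, Sym2.mk_isDiag_iff] at he
    exact ⟨a, b, he, rfl⟩

theorem card_filt (e : Sym2 (Fin n)) (he : e ∈ allE n) :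
    (univ.filter (fun v => v ∈ e)).card = 2 := by
  obtain ⟨a, b, hab, rfl⟩ := exists_pair e he
  rw [filt]
  exact card_pair hab

theorem star_card (v : Fin n) (R : Finset (Sym2 (Fin n))) (hR : R ⊆ allE n) :
    (R.filter (fun e => v ∈ e)).card ≤ n - 1 := by
  have hsub : R.filter (fun e => v ∈ e) ⊆ (univ.erase v).image (fun u => s(v, u)) := by
    intro e he
    rw [mem_filter] at he
    have h1 := hR he.1
    obtain ⟨u, hu⟩ := he.2
    rw [mem_image]
    refine ⟨u, ?_, hu.symm⟩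
    rw [mem_erase]
    refine ⟨?_, mem_univ _⟩
    rintro rfl
    rw [mem_allE, hu] at h1
    exact h1 (Sym2.mk_isDiag_iff.mpr rfl)
  calc _ ≤ ((univ.erase v).image (fun u => s(v, u))).card := card_le_card hsub
    _ ≤ (univ.erase v).card := card_image_le
    _ = n - 1 := by simp

theorem dbl (R : Finset (Sym2 (Fin n))) (g : Fin n → ℝ) :
    ∑ e ∈ R, ∑ v ∈ univ.filter (fun v => v ∈ e), g v =
      ∑ v, g v * ((R.filter (fun e => v ∈ e)).card : ℝ) := by
  have h1 : ∀ e ∈ R, ∑ v ∈ univ.filter (fun v => v ∈ e), g v = ∑ v, if v ∈ e then g v else 0 := by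
    intro e _
    rw [sum_filter]
  rw [sum_congr rfl h1, sum_comm]
  apply sum_congr rfl
  intro v _
  rw [← sum_filter, sum_const, nsmul_eq_mul, mul_comm]

theorem sum_deg (H : Finset (Sym2 (Fin n))) (hH : H ⊆ allE n) :
    ∑ v, (deg H v : ℝ) = 2 * H.card := by
  have h := dbl H (fun _ => (1 : ℝ))
  simp only [one_mul] at h
  unfold deg
  rw [← h]
  have h2 : ∀ e ∈ H, ∑ v ∈ univ.filter (fun v => v ∈ e), (1 : ℝ) = 2 := by
    intro e he
    rw [sum_const, card_filt e (hH he)]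
    norm_num
  rw [sum_congr rfl h2, sum_const, nsmul_eq_mul, mul_comm]

theorem wgt_pos (α : ℝ) (hα : 0 < α) (H : Finset (Sym2 (Fin n))) (e : Sym2 (Fin n)) :
    0 < wgt α H e := by
  unfold wgt
  apply prod_pos
  intro v _
  positivity

theorem log_ineq (y : ℝ) (hy : 0 ≤ y) : ((1 + y) ^ 2 - 1) / 2 - Real.log (1 + y) ≤ y ^ 2 := by
  have h := Real.le_log_one_add_of_nonneg hy
  have h2 : y - y ^ 2 / 2 ≤ 2 * y / (y + 2) := by
    rw [le_div_iff₀ (by positivity)]
    have : 0 ≤ y ^ 3 := by positivity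
    nlinarith
  nlinarith

theorem edge_ineq (α : ℝ) (hα : 0 < α) (H : Finset (Sym2 (Fin n))) (e : Sym2 (Fin n))
    (he : e ∈ allE n) :
    wgt α H e / α ^ 2 - 1 - Real.log (wgt α H e / α ^ 2) ≤
      ∑ v ∈ univ.filter (fun v => v ∈ e), (deg H v : ℝ) ^ 2 / α ^ 2 := by
  obtain ⟨a, b, hab, rfl⟩ := exists_pair e he
  have hw : wgt α H s(a, b) = ((deg H a : ℝ) + α) * ((deg H b : ℝ) + α) := by
    unfold wgt
    rw [filt, prod_pair hab]
  rw [hw, filt, sum_pair hab]
  set ya : ℝ := (deg H a : ℝ) / α with hya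
  set yb : ℝ := (deg H b : ℝ) / α with hyb
  have ha0 : 0 ≤ ya := by positivity
  have hb0 : 0 ≤ yb := by positivity
  have e1 : ((deg H a : ℝ) + α) * ((deg H b : ℝ) + α) / α ^ 2 = (1 + ya) * (1 + yb) := by
    rw [hya, hyb]; field_simp; ring
  have e2 : (deg H a : ℝ) ^ 2 / α ^ 2 = ya ^ 2 := by rw [hya, div_pow]
  have e3 : (deg H b : ℝ) ^ 2 / α ^ 2 = yb ^ 2 := by rw [hyb, div_pow]
  rw [e1, e2, e3, Real.log_mul (by positivity) (by positivity)]
  have h1 := log_ineq ya ha0
  have h2 := log_ineq yb hb0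
  nlinarith [sq_nonneg (ya - yb)]

theorem choose_two_cast (hn : 2 ≤ n) : ((n.choose 2 : ℕ) : ℝ) = (n : ℝ) * (n - 1) / 2 := by
  rw [Nat.cast_choose_two]

/-- the bound of the logarithm defect -/
theorem defect (hn : 2 ≤ n) (α : ℝ) (hα : 0 < α) (H : Finset (Sym2 (Fin n))) (hH : H ⊆ allE n)
    (hc : 2 * H.card < (allE n).card) :
    Real.log ((∑ e ∈ allE n \ H, wgt α H e) / ((allE n).card - H.card : ℝ))
      - (∑ e ∈ allE n \ H, Real.log (wgt α H e)) / ((allE n).card - H.card : ℝ) ≤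
      4 / (n * α ^ 2) * ∑ v, (deg H v : ℝ) ^ 2 := by
  have hn' : (2 : ℝ) ≤ n := by exact_mod_cast hn
  set R := allE n \ H with hR
  set r : ℝ := ((allE n).card - H.card : ℝ) with hr
  have hRc : (R.card : ℝ) = r := by
    rw [hR, card_sdiff_of_subset hH, Nat.cast_sub (card_le_card hH)]
  have hNr : ((allE n).card : ℝ) = (n : ℝ) * (n - 1) / 2 := by
    rw [card_allE, choose_two_cast hn]
  have hc' : 2 * (H.card : ℝ) ≤ (allE n).card := by exact_mod_cast hc.le
  have hr4 : (n : ℝ) * (n - 1) / 4 ≤ r := by rw [hr]; linarith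
  have hr0 : 0 < r := by
    have : 0 < (n : ℝ) * (n - 1) / 4 := by
      have : (0 : ℝ) < n - 1 := by linarith
      positivity
    linarith
  have hRsub : R ⊆ allE n := sdiff_subset
  have hMpos : 0 < (∑ e ∈ R, wgt α H e) / r := by
    apply div_pos _ hr0
    apply sum_pos (fun e _ => wgt_pos α hα H e)
    rw [← card_pos]
    have : (0 : ℝ) < R.card := by rw [hRc]; exact hr0
    exact_mod_cast this
  have ha2 : 0 < α ^ 2 := by positivity
  have h1 : Real.log ((∑ e ∈ R, wgt α H e) / r) ≤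
      Real.log (α ^ 2) + ((∑ e ∈ R, wgt α H e) / r / α ^ 2 - 1) := by
    have e1 : (∑ e ∈ R, wgt α H e) / r = α ^ 2 * ((∑ e ∈ R, wgt α H e) / r / α ^ 2) := by
      field_simp
    rw [e1, Real.log_mul ha2.ne' (by positivity), ← e1]
    gcongr
    exact Real.log_le_sub_one_of_pos (by positivity)
  have h2 : ∑ e ∈ R, Real.log (wgt α H e) =
      r * Real.log (α ^ 2) + ∑ e ∈ R, Real.log (wgt α H e / α ^ 2) := by
    have : ∀ e ∈ R, Real.log (wgt α H e) = Real.log (α ^ 2) + Real.log (wgt α H e / α ^ 2) := by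
      intro e _
      rw [Real.log_div (wgt_pos α hα H e).ne' ha2.ne']; ring
    rw [sum_congr rfl this, sum_add_distrib, sum_const, nsmul_eq_mul, hRc]
  have h3 : ∑ e ∈ R, (wgt α H e / α ^ 2 - 1 - Real.log (wgt α H e / α ^ 2)) ≤
      ((n : ℝ) - 1) / α ^ 2 * ∑ v, (deg H v : ℝ) ^ 2 := by
    calc ∑ e ∈ R, (wgt α H e / α ^ 2 - 1 - Real.log (wgt α H e / α ^ 2))
        ≤ ∑ e ∈ R, ∑ v ∈ univ.filter (fun v => v ∈ e), (deg H v : ℝ) ^ 2 / α ^ 2 :=
          sum_le_sum (fun e he => edge_ineq α hα H e (hRsub he))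
      _ = ∑ v, (deg H v : ℝ) ^ 2 / α ^ 2 * ((R.filter (fun e => v ∈ e)).card : ℝ) := dbl R _
      _ ≤ ∑ v, (deg H v : ℝ) ^ 2 / α ^ 2 * ((n : ℝ) - 1) := by
          apply sum_le_sum
          intro v _
          have := star_card v R hRsub
          have h5 : ((R.filter (fun e => v ∈ e)).card : ℝ) ≤ ((n - 1 : ℕ) : ℝ) := by
            exact_mod_cast this
          rw [Nat.cast_sub (by omega), Nat.cast_one] at h5
          gcongr
      _ = _ := by rw [← sum_mul, ← sum_div]; ring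
  have h4 : ∑ e ∈ R, (wgt α H e / α ^ 2 - 1 - Real.log (wgt α H e / α ^ 2)) =
      (∑ e ∈ R, wgt α H e) / α ^ 2 - r - ∑ e ∈ R, Real.log (wgt α H e / α ^ 2) := by
    rw [sum_sub_distrib, sum_sub_distrib, ← sum_div, sum_const, nsmul_eq_mul, hRc, mul_one]
  have h6 : 0 ≤ ∑ v, (deg H v : ℝ) ^ 2 := by positivity
  calc Real.log ((∑ e ∈ R, wgt α H e) / r) - (∑ e ∈ R, Real.log (wgt α H e)) / r
      ≤ (Real.log (α ^ 2) + ((∑ e ∈ R, wgt α H e) / r / α ^ 2 - 1)) -
        (r * Real.log (α ^ 2) + ∑ e ∈ R, Real.log (wgt α H e / α ^ 2)) / r := by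
        rw [h2]; gcongr
    _ = ((∑ e ∈ R, wgt α H e) / α ^ 2 - r - ∑ e ∈ R, Real.log (wgt α H e / α ^ 2)) / r := by
        field_simp
        ring
    _ ≤ (((n : ℝ) - 1) / α ^ 2 * ∑ v, (deg H v : ℝ) ^ 2) / r := by
        rw [← h4]; gcongr
    _ ≤ 4 / (n * α ^ 2) * ∑ v, (deg H v : ℝ) ^ 2 := by
        rw [div_le_iff₀ hr0]
        have e5 : 4 / (n * α ^ 2) * (∑ v, (deg H v : ℝ) ^ 2) * r =
          (4 * r / n) / α ^ 2 * ∑ v, (deg H v : ℝ) ^ 2 := by
          field_simp
        rw [e5]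
        gcongr
        rw [le_div_iff₀ (by positivity)]
        linarith

/-- double counting of the pairs `(G, e)` with `e ∈ G` -/
theorem pairs (E : Finset (Sym2 (Fin n))) (t : ℕ) (F : Finset (Sym2 (Fin n)) → ℝ) :
    ((t : ℝ) + 1) * ∑ G ∈ E.powersetCard (t + 1), F G =
      ∑ H ∈ E.powersetCard t, ∑ e ∈ E \ H, F (insert e H) := by
  have h1 : ((t : ℝ) + 1) * ∑ G ∈ E.powersetCard (t + 1), F G =
      ∑ G ∈ E.powersetCard (t + 1), ∑ e ∈ G, F G := by
    rw [mul_sum]
    apply sum_congr rfl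
    intro G hG
    rw [sum_const, nsmul_eq_mul, (mem_powersetCard.mp hG).2]
    push_cast; ring
  rw [h1, sum_sigma', sum_sigma']
  refine sum_bij' (fun x _ => (⟨x.1.erase x.2, x.2⟩ : (_ : Finset (Sym2 (Fin n))) × Sym2 (Fin n)))
    (fun x _ => ⟨insert x.2 x.1, x.2⟩) ?_ ?_ ?_ ?_ ?_
  · rintro ⟨G, e⟩ hx
    rw [mem_sigma, mem_powersetCard] at hx
    rw [mem_sigma, mem_powersetCard, Finset.mem_sdiff]
    refine ⟨⟨(erase_subset _ _).trans hx.1.1, ?_⟩, hx.1.1 hx.2, notMem_erase _ _⟩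
    rw [card_erase_of_mem hx.2, hx.1.2]; rfl
  · rintro ⟨H, e⟩ hx
    rw [mem_sigma, mem_powersetCard, Finset.mem_sdiff] at hx
    rw [mem_sigma, mem_powersetCard]
    refine ⟨⟨insert_subset hx.2.1 hx.1.1, ?_⟩, mem_insert_self _ _⟩
    rw [card_insert_of_notMem hx.2.2, hx.1.2]
  · rintro ⟨G, e⟩ hx
    rw [mem_sigma] at hx
    simp only [insert_erase hx.2]
  · rintro ⟨H, e⟩ hx
    rw [mem_sigma, Finset.mem_sdiff] at hx
    simp only [erase_insert hx.2.2]
  · rintro ⟨G, e⟩ hx
    rw [mem_sigma] at hx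
    simp only [insert_erase hx.2]

/-- the sum of the squares of the degrees -/
noncomputable def S (H : Finset (Sym2 (Fin n))) : ℝ := ∑ v, (deg H v : ℝ) ^ 2

theorem deg_insert (H : Finset (Sym2 (Fin n))) (e : Sym2 (Fin n)) (he : e ∉ H) (v : Fin n) :
    (deg (insert e H) v : ℝ) = deg H v + if v ∈ e then 1 else 0 := by
  unfold deg
  rw [filter_insert]
  split_ifs with h
  · rw [card_insert_of_notMem (fun h' => he (mem_filter.mp h').1)]
    push_cast; ring
  · simp

theorem S_insert (H : Finset (Sym2 (Fin n))) (e : Sym2 (Fin n)) (he : e ∉ H) (heE : e ∈ allE n) :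
    S (insert e H) = S H + 2 + 2 * ∑ v ∈ univ.filter (fun v => v ∈ e), (deg H v : ℝ) := by
  unfold S
  have h1 : ∀ v : Fin n, (deg (insert e H) v : ℝ) ^ 2 =
      (deg H v : ℝ) ^ 2 + ((if v ∈ e then 1 else 0) + 2 * if v ∈ e then (deg H v : ℝ) else 0) := by
    intro v
    rw [deg_insert H e he v]
    split_ifs <;> ring
  rw [sum_congr rfl (fun v _ => h1 v), sum_add_distrib, sum_add_distrib, ← mul_sum, ← sum_filter,
    ← sum_filter, sum_const, card_filt e heE]
  norm_num
  ring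

theorem step (hn : 2 ≤ n) (t : ℕ) (ht : 2 * t ≤ (allE n).card) (H : Finset (Sym2 (Fin n)))
    (hH : H ∈ (allE n).powersetCard t) :
    ∑ e ∈ allE n \ H, S (insert e H) ≤
      ((allE n).card - t : ℝ) * (S H + (2 + 16 * t / n)) := by
  have hn' : (2 : ℝ) ≤ n := by exact_mod_cast hn
  rw [mem_powersetCard] at hH
  have hRsub : allE n \ H ⊆ allE n := sdiff_subset
  have hRc : ((allE n \ H).card : ℝ) = (allE n).card - t := by
    rw [card_sdiff_of_subset hH.1, Nat.cast_sub (card_le_card hH.1), hH.2]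
  have hNr : ((allE n).card : ℝ) = (n : ℝ) * (n - 1) / 2 := by
    rw [card_allE, choose_two_cast hn]
  have ht' : 2 * (t : ℝ) ≤ (allE n).card := by exact_mod_cast ht
  have h1 : ∑ e ∈ allE n \ H, S (insert e H) = ((allE n).card - t : ℝ) * (S H + 2) +
      2 * ∑ e ∈ allE n \ H, ∑ v ∈ univ.filter (fun v => v ∈ e), (deg H v : ℝ) := by
    rw [sum_congr rfl (fun e he => S_insert H e (Finset.mem_sdiff.mp he).2 (hRsub he)), sum_add_distrib,
      ← mul_sum, sum_const, nsmul_eq_mul, hRc]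
  have h2 : ∑ e ∈ allE n \ H, ∑ v ∈ univ.filter (fun v => v ∈ e), (deg H v : ℝ) ≤
      ((n : ℝ) - 1) * (2 * t) := by
    rw [dbl, ← hH.2, ← sum_deg H hH.1, mul_sum]
    apply sum_le_sum
    intro v _
    have := star_card v (allE n \ H) hRsub
    have h5 : (((allE n \ H).filter (fun e => v ∈ e)).card : ℝ) ≤ ((n - 1 : ℕ) : ℝ) := by
      exact_mod_cast this
    rw [Nat.cast_sub (by omega), Nat.cast_one] at h5
    rw [mul_comm]
    gcongr
  rw [h1]
  have h3 : (n : ℝ) * (n - 1) / 4 ≤ (allE n).card - t := by linarith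
  have h4 : 2 * (((n : ℝ) - 1) * (2 * t)) ≤ ((allE n).card - t : ℝ) * (16 * t / n) := by
    calc 2 * (((n : ℝ) - 1) * (2 * t)) = ((n : ℝ) * (n - 1) / 4) * (16 * t / n) := by
          field_simp; ring
      _ ≤ _ := by gcongr
  nlinarith

theorem um_S (hn : 2 ≤ n) (t : ℕ) (ht : 2 * t ≤ (allE n).card) :
    um (n := n) t S ≤ 2 * t + 8 * (t : ℝ) ^ 2 / n := by
  have hn' : (2 : ℝ) ≤ n := by exact_mod_cast hn
  induction t with
  | zero =>
    unfold um
    simp [S, deg]
  | succ t ih =>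
    have ih' := ih (by omega)
    have ht1 : t + 1 ≤ (allE n).card := by omega
    have hp := pairs (allE n) t (S (n := n))
    have hs : ∑ H ∈ (allE n).powersetCard t, ∑ e ∈ allE n \ H, S (insert e H) ≤
        ∑ H ∈ (allE n).powersetCard t, ((allE n).card - t : ℝ) * (S H + (2 + 16 * t / n)) :=
      sum_le_sum (fun H hH => step hn t (by omega) H hH)
    rw [← hp, ← mul_sum, sum_add_distrib, sum_const, card_powersetCard, nsmul_eq_mul] at hs
    have hch : ((allE n).card.choose (t + 1) : ℝ) * ((t : ℝ) + 1) =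
        ((allE n).card.choose t : ℝ) * ((allE n).card - t : ℝ) := by
      have := Nat.choose_succ_right_eq (allE n).card t
      have h2 : (((allE n).card.choose (t + 1) * (t + 1) : ℕ) : ℝ) =
        (((allE n).card.choose t * ((allE n).card - t) : ℕ) : ℝ) := by rw [this]
      rw [Nat.cast_mul, Nat.cast_mul, Nat.cast_sub (by omega)] at h2
      push_cast at h2
      exact h2
    have hC0 : 0 < ((allE n).card.choose t : ℝ) := by
      exact_mod_cast Nat.choose_pos (by omega)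
    have hC1 : 0 < ((allE n).card.choose (t + 1) : ℝ) := by
      exact_mod_cast Nat.choose_pos (by omega)
    have hNt : (0 : ℝ) < (allE n).card - t := by
      have : ((t + 1 : ℕ) : ℝ) ≤ (allE n).card := by exact_mod_cast ht1
      push_cast at this
      linarith
    have key : um (n := n) (t + 1) S ≤ um (n := n) t S + (2 + 16 * t / n) := by
      unfold um
      rw [div_le_iff₀ hC1]
      have e1 : (∑ H ∈ (allE n).powersetCard t, S H / 1 : ℝ) = ∑ H ∈ (allE n).powersetCard t, S H := by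
        simp
      have h5 : ((t : ℝ) + 1) * (∑ G ∈ (allE n).powersetCard (t + 1), S G) ≤
        ((t : ℝ) + 1) * (((∑ H ∈ (allE n).powersetCard t, S H) / ((allE n).card.choose t : ℝ) +
          (2 + 16 * t / n)) * ((allE n).card.choose (t + 1) : ℝ)) := by
        calc _ ≤ _ := hs
          _ = (((allE n).card.choose t : ℝ) * ((allE n).card - t : ℝ)) *
            ((∑ H ∈ (allE n).powersetCard t, S H) / ((allE n).card.choose t : ℝ) +
              (2 + 16 * t / n)) := by
              field_simp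
          _ = _ := by rw [← hch]; ring
      exact le_of_mul_le_mul_left h5 (by positivity)
    calc _ ≤ _ := key
      _ ≤ 2 * t + 8 * (t : ℝ) ^ 2 / n + (2 + 16 * t / n) := by gcongr
      _ ≤ 2 * ((t + 1 : ℕ) : ℝ) + 8 * ((t + 1 : ℕ) : ℝ) ^ 2 / n := by
        push_cast
        have : 8 * ((t : ℝ) + 1) ^ 2 / n = 8 * (t : ℝ) ^ 2 / n + 16 * t / n + 8 / n := by
          field_simp; ring
        rw [this]
        have : 0 ≤ 8 / (n : ℝ) := by positivity
        linarith

theorem sum_t (m : ℕ) : ∑ t ∈ range m, (2 * (t : ℝ) + 8 * (t : ℝ) ^ 2 / n) ≤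
    (m : ℝ) ^ 2 * (1 + 3 * m / n) := by
  induction m with
  | zero => simp
  | succ m ih =>
    rw [sum_range_succ]
    push_cast
    have e1 : ((m : ℝ) + 1) ^ 2 * (1 + 3 * (m + 1) / n) =
      ((m : ℝ) ^ 2 * (1 + 3 * m / n) + (2 * m + 1)) + (9 * m ^ 2 + 9 * m + 3) / n := by
      ring
    rw [e1]
    have e2 : 8 * (m : ℝ) ^ 2 / n ≤ (9 * m ^ 2 + 9 * m + 3) / n := by
      gcongr
      nlinarith [sq_nonneg (m : ℝ), (Nat.cast_nonneg m : (0 : ℝ) ≤ m)]
    linarith

end ModTVB

open ModTVB in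
theorem tvb (hTVA : StmTVA) : StmTVB := by
  intro n m α hn hα hm
  have hn' : (2 : ℝ) ≤ n := by exact_mod_cast hn
  set D : Finset (Sym2 (Fin n)) → ℝ := fun H => 4 / (n * α ^ 2) * S H with hD
  have h1 := hTVA n m (wgt α) D (wgt_pos α hα) (by omega) (by
    intro H hH hc
    exact defect hn α hα H hH (by omega))
  refine h1.trans ?_
  have h2 : ∑ t ∈ range m, um t D ≤ 4 / (n * α ^ 2) * ((m : ℝ) ^ 2 * (1 + 3 * m / n)) := by
    calc ∑ t ∈ range m, um t D
        = ∑ t ∈ range m, 4 / (n * α ^ 2) * um (n := n) t S := by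
          apply sum_congr rfl
          intro t _
          unfold um
          rw [hD, ← mul_sum, mul_div_assoc]
      _ ≤ ∑ t ∈ range m, 4 / (n * α ^ 2) * (2 * (t : ℝ) + 8 * (t : ℝ) ^ 2 / n) := by
          apply sum_le_sum
          intro t ht
          rw [mem_range] at ht
          have := um_S hn t (by omega)
          gcongr
      _ ≤ _ := by
          rw [← mul_sum]
          have := sum_t (n := n) m
          gcongr
  calc 2 * Real.sqrt (∑ t ∈ range m, um t D)
      ≤ 2 * Real.sqrt (4 / (n * α ^ 2) * ((m : ℝ) ^ 2 * (1 + 3 * m / n))) := by gcongr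
    _ = 2 * Real.sqrt ((2 * m / (α * Real.sqrt n)) ^ 2 * (1 + 3 * m / n)) := by
        congr 2
        rw [div_pow, mul_pow, mul_pow, Real.sq_sqrt (by positivity)]
        field_simp
        ring
    _ = 4 * m / (α * Real.sqrt n) * Real.sqrt (1 + 3 * m / n) := by
        rw [Real.sqrt_mul (by positivity), Real.sqrt_sq (by positivity)]
        ring

end Pool.Agent.T6.H44.PA
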