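import Pool.Agent.T6.H44.PA.Defs

set_option autoImplicit false

namespace Pool.Agent.T6.H44.PA

open Finset Classical Filter Topology
open Pool.Agent.H890.C (ex cl Rch mem_cl)

theorem adj_ed {n : ℕ} (ω : Sym2 (Fin n) → Bool) (x y : Fin n) :
    (SimpleGraph.fromEdgeSet ((ed ω : Finset (Sym2 (Fin n))) : Set (Sym2 (Fin n)))).Adj x y
      ↔ ω s(x, y) = true ∧ x ≠ y := by
  rw [SimpleGraph.fromEdgeSet_adj]
  simp only [ed, allE, Finset.coe_filter, Set.mem_setOf_eq, Finset.mem_filter, Finset.mem_univ,
    true_and, Sym2.mk_isDiag_iff]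
  tauto

theorem br : StmBR := by
  intro n ω v
  ext w
  rw [mem_cl]
  simp only [comp, Finset.mem_filter, Finset.mem_univ, true_and]
  constructor
  · intro h
    rw [SimpleGraph.reachable_iff_reflTransGen] at h
    induction h with
    | refl => exact Rch.refl (Finset.mem_univ _)
    | tail _ hs ih =>
      rw [adj_ed] at hs
      exact ih.tail (Finset.mem_univ _) hs.2 hs.1
  · intro h
    induction h with
    | refl _ => exact SimpleGraph.Reachable.refl _
    | @tail y z _ _ hne ho ih =>
      exact ih.trans (SimpleGraph.Adj.reachable ((adj_ed ω y z).2 ⟨ho, hne⟩))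

end Pool.Agent.T6.H44.PA
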