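import Pool.Agent.T6.H44.PA.GB

set_option autoImplicit false

namespace Pool.Agent.T6.H44.PA

open Finset Classical Filter Topology

variable {n : ℕ}

theorem um_add (k : ℕ) (f g : Finset (Sym2 (Fin n)) → ℝ) :
    um k (fun H => f H + g H) = um k f + um k g := by
  unfold um; rw [Finset.sum_add_distrib]; ring

theorem um_smul (k : ℕ) (c : ℝ) (f : Finset (Sym2 (Fin n)) → ℝ) :
    um k (fun H => c * f H) = c * um k f := by
  unfold um; rw [← Finset.mul_sum]; ring

theorem um_const {k : ℕ} (hk : k ≤ (allE n).card) (c : ℝ) :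
    um k (fun _ : Finset (Sym2 (Fin n)) => c) = c := by
  unfold um
  rw [Finset.sum_const, Finset.card_powersetCard, nsmul_eq_mul]
  have : ((allE n).card.choose k : ℝ) ≠ 0 := by
    exact_mod_cast (Nat.choose_pos hk).ne'
  field_simp

theorem um_neg (k : ℕ) (f : Finset (Sym2 (Fin n)) → ℝ) :
    um k (fun H => - f H) = - um k f := by
  unfold um; rw [Finset.sum_neg_distrib]; ring

theorem comp_mono {H₁ H₂ : Finset (Sym2 (Fin n))} (h : H₁ ⊆ H₂) (v : Fin n) :
    comp H₁ v ⊆ comp H₂ v := by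
  intro w hw
  simp only [comp, Finset.mem_filter, Finset.mem_univ, true_and] at hw ⊢
  exact hw.mono (SimpleGraph.fromEdgeSet_mono (by exact_mod_cast h))

theorem mem_comp_self (H : Finset (Sym2 (Fin n))) (v : Fin n) : v ∈ comp H v := by
  simp [comp]

theorem comp_eq_of_mem {H : Finset (Sym2 (Fin n))} {v w : Fin n} (h : w ∈ comp H v) :
    comp H w = comp H v := by
  simp only [comp, Finset.mem_filter, Finset.mem_univ, true_and] at h
  ext u
  simp only [comp, Finset.mem_filter, Finset.mem_univ, true_and]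
  exact ⟨fun h' => h.trans h', fun h' => h.symm.trans h'⟩

theorem T_mono (K : ℝ) : Mono (T (n := n) K) := by
  intro H₁ H₂ h _
  unfold T
  refine Finset.sum_le_sum fun v _ => ?_
  refine min_le_min_right K ?_
  exact_mod_cast Finset.card_le_card (comp_mono h v)

/-- the proportion of vertices in components with at least `K` vertices -/
noncomputable def G (K : ℝ) (H : Finset (Sym2 (Fin n))) : ℝ :=
  (1 / K) * ∑ v, (if K ≤ ((comp H v).card : ℝ) then 1 else 0)

theorem G_nonneg {K : ℝ} (hK : 0 < K) (H : Finset (Sym2 (Fin n))) : 0 ≤ G K H := by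
  unfold G
  refine mul_nonneg (by positivity) (Finset.sum_nonneg fun v _ => ?_)
  split_ifs <;> norm_num

theorem G_mono {K : ℝ} (hK : 0 < K) : Mono (G (n := n) K) := by
  intro H₁ H₂ h _
  unfold G
  refine mul_le_mul_of_nonneg_left (Finset.sum_le_sum fun v _ => ?_) (by positivity)
  have : ((comp H₁ v).card : ℝ) ≤ (comp H₂ v).card := by
    exact_mod_cast Finset.card_le_card (comp_mono h v)
  by_cases h1 : K ≤ ((comp H₁ v).card : ℝ)
  · rw [if_pos h1, if_pos (h1.trans this)]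
  · rw [if_neg h1]; split_ifs <;> norm_num

theorem one_le_G {K : ℝ} (hK : 0 < K) {H : Finset (Sym2 (Fin n))} {v : Fin n}
    (hv : K ≤ ((comp H v).card : ℝ)) : 1 ≤ G K H := by
  unfold G
  have h1 : ((comp H v).card : ℝ) ≤ ∑ w, (if K ≤ ((comp H w).card : ℝ) then (1:ℝ) else 0) := by
    rw [Finset.sum_boole]
    norm_cast
    refine Finset.card_le_card fun w hw => ?_
    simp only [Finset.mem_filter, Finset.mem_univ, true_and]
    rw [comp_eq_of_mem hw]
    exact hv
  rw [one_div_mul_eq_div, le_div_iff₀ hK]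
  linarith

theorem gp_sum {ι : Type} (s : Finset ι) (π : ℝ) (f : ι → Finset (Sym2 (Fin n)) → ℝ) :
    gp π (fun H => ∑ i ∈ s, f i H) = ∑ i ∈ s, gp π (f i) := by
  unfold gp
  exact Pool.Agent.H890.C.ex_sum s (pc n π) (fun i ω => f i (ed ω))

theorem gp_smul (π c : ℝ) (f : Finset (Sym2 (Fin n)) → ℝ) :
    gp π (fun H => c * f H) = c * gp π f := by
  unfold gp
  exact Pool.Agent.H890.C.ex_smul (pc n π) c (fun ω => f (ed ω))

/-- comparison of the uniform graphs with `a ≤ b` edges -/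
theorem cp1 (hTEL : StmTEL) (hSW : StmSW) (hCO : StmCO) (a b : ℕ) (hab : a ≤ b) (x K ε B w c : ℝ)
    (hx : 0 < x) (hx2 : 4 * ((b : ℝ) + x) ≤ x ^ 2) (hxa : x ≤ a)
    (hbN : (b : ℝ) + x ≤ (allE n).card) (hK : 1 ≤ K) (hε0 : 0 ≤ ε) (hε1 : ε ≤ 1 / 8)
    (hp : ((b : ℝ) + x) / (allE n).card ≤ 1 / 16)
    (hnp : (n : ℝ) * (((b : ℝ) + x) / (allE n).card) ≤ 1 + ε)
    (hB : 0 ≤ B) (hc : 0 ≤ c) (φ : Finset (Sym2 (Fin n)) → ℝ)
    (hφ : ∀ H₁ H₂ : Finset (Sym2 (Fin n)), H₁ ⊆ H₂ → H₂ ⊆ allE n →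
      |φ H₁ - φ H₂| ≤ w + c * (T K H₂ - T K H₁) + B * G K H₂) :
    |um a φ - um b φ| ≤ w + c * (2 * (((b : ℝ) - a + 2 * x) / (allE n).card *
      (n * (6 * Real.sqrt K + 16 * ε * K)) ^ 2)) +
      B * (2 * (n / K * (6 / Real.sqrt K + 16 * ε))) := by
  have hK0 : 0 < K := by linarith
  have hN0 : (0 : ℝ) < (allE n).card := by
    have : (0:ℝ) ≤ b := Nat.cast_nonneg b
    linarith
  have hbN' : b ≤ (allE n).card := by
    have : (b : ℝ) ≤ (allE n).card := by linarith
    exact_mod_cast this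
  have haN' : a ≤ (allE n).card := hab.trans hbN'
  set p₂ := ((b : ℝ) + x) / (allE n).card with hp2
  set p₁ := ((a : ℝ) - x) / (allE n).card with hp1
  have hab' : (a : ℝ) ≤ b := by exact_mod_cast hab
  have hp1' : 0 ≤ p₁ := div_nonneg (by linarith) hN0.le
  have hp12 : p₁ ≤ p₂ := div_le_div_of_nonneg_right (by linarith) hN0.le
  have hp20 : 0 ≤ p₂ := hp1'.trans hp12
  have hT := (hSW n a b x (T K) (T_mono K) hab hx hx2 hxa hbN).1
  have hG := (hSW n a b x (G K) (G_mono hK0) hab hx hx2 hxa hbN).2 (G_nonneg hK0)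
  have hTel := hTEL n p₁ p₂ K hp1' hp12 (by linarith) hK0.le
  have hgT : gp p₂ (T (n := n) K) ≤ n * (6 * Real.sqrt K + 16 * ε * K) := by
    unfold T
    rw [gp_sum]
    calc ∑ v : Fin n, gp p₂ (fun H => min ((comp H v).card : ℝ) K)
        ≤ ∑ _v : Fin n, (6 * Real.sqrt K + 16 * ε * K) :=
          Finset.sum_le_sum fun v _ => (gb n p₂ ε K v hp20 hp hnp hε0 hε1 hK).1
      _ = _ := by simp; ring
  have hgT0 : 0 ≤ gp p₂ (T (n := n) K) := by
    refine Pool.Agent.H890.C.ex_nonneg (pc_adm n hp20 (by linarith)) fun ω => ?_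
    exact Finset.sum_nonneg fun v _ => le_min (Nat.cast_nonneg _) hK0.le
  have hgG : gp p₂ (G (n := n) K) ≤ n / K * (6 / Real.sqrt K + 16 * ε) := by
    unfold G
    rw [gp_smul, gp_sum]
    calc (1 / K) * ∑ v : Fin n, gp p₂ (fun H => if K ≤ ((comp H v).card : ℝ) then 1 else 0)
        ≤ (1 / K) * ∑ _v : Fin n, (6 / Real.sqrt K + 16 * ε) :=
          mul_le_mul_of_nonneg_left (Finset.sum_le_sum fun v _ =>
            (gb n p₂ ε K v hp20 hp hnp hε0 hε1 hK).2) (by positivity)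
      _ = _ := by simp; ring
  have hTd : um b (T (n := n) K) - um a (T (n := n) K)
      ≤ 2 * (((b : ℝ) - a + 2 * x) / (allE n).card *
        (n * (6 * Real.sqrt K + 16 * ε * K)) ^ 2) := by
    have h1 : p₂ - p₁ = ((b : ℝ) - a + 2 * x) / (allE n).card := by
      rw [hp2, hp1]; ring
    have h2 : (p₂ - p₁) * gp p₂ (T (n := n) K) ^ 2
        ≤ (p₂ - p₁) * (n * (6 * Real.sqrt K + 16 * ε * K)) ^ 2 :=
      mul_le_mul_of_nonneg_left (pow_le_pow_left₀ hgT0 hgT 2) (by linarith)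
    rw [h1] at h2 hTel
    linarith
  have hGd : um b (G (n := n) K) ≤ 2 * (n / K * (6 / Real.sqrt K + 16 * ε)) := by linarith
  have main : ∀ ψ : Finset (Sym2 (Fin n)) → ℝ, (∀ H₁ H₂ : Finset (Sym2 (Fin n)), H₁ ⊆ H₂ →
      H₂ ⊆ allE n → ψ H₁ - ψ H₂ ≤ w + c * (T K H₂ - T K H₁) + B * G K H₂) →
      um a ψ - um b ψ ≤ w + c * (um b (T (n := n) K) - um a (T (n := n) K))
        + B * um b (G (n := n) K) := by
    intro ψ hψ
    have h1 := hCO n a b (fun H => ψ H + c * T K H) (fun H => ψ H + (w + (c * T K H + B * G K H)))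
      hab hbN' (by
        intro H₁ H₂ h12 h2 _ _
        have := hψ H₁ H₂ h12 h2
        linarith)
    rw [um_add, um_smul, um_add, um_add, um_const hbN', um_add, um_smul, um_smul] at h1
    linarith
  have hfin : w + c * (um b (T (n := n) K) - um a (T (n := n) K)) + B * um b (G (n := n) K)
      ≤ w + c * (2 * (((b : ℝ) - a + 2 * x) / (allE n).card *
        (n * (6 * Real.sqrt K + 16 * ε * K)) ^ 2)) +
        B * (2 * (n / K * (6 / Real.sqrt K + 16 * ε))) := by
    have := mul_le_mul_of_nonneg_left hTd hc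
    have := mul_le_mul_of_nonneg_left hGd hB
    linarith
  rw [abs_le]
  constructor
  · have h := main (fun H => - φ H) (by
      intro H₁ H₂ h12 h2
      have := (abs_le.1 (hφ H₁ H₂ h12 h2)).1
      linarith)
    rw [um_neg, um_neg] at h
    linarith
  · have h := main φ (fun H₁ H₂ h12 h2 => (abs_le.1 (hφ H₁ H₂ h12 h2)).2)
    linarith

end Pool.Agent.T6.H44.PA
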