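import Pool.Agent.T6.H44.PA.CP

set_option autoImplicit false

namespace Pool.Agent.T6.H44.PA

open Finset Classical Filter Topology

theorem L_le_of {n : ℕ} {H : Finset (Sym2 (Fin n))} {K : ℝ} (hK : 0 ≤ K)
    (h : ∀ v, ((comp H v).card : ℝ) < K) {j : ℕ} (hj : 1 ≤ j) : (L H j : ℝ) ≤ K := by
  by_cases h0 : L H j = 0
  · rw [h0]; simpa using hK
  · have h1 : j ≤ ((comps H).filter (fun C => L H j ≤ C.card)).card :=
      Nat.findGreatest_of_ne_zero (P := fun s => j ≤ ((comps H).filter (fun C => s ≤ C.card)).card)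
        (n := n) rfl h0
    have h2 : 0 < ((comps H).filter (fun C => L H j ≤ C.card)).card := by omega
    obtain ⟨C, hC⟩ := Finset.card_pos.1 h2
    rw [Finset.mem_filter] at hC
    obtain ⟨hC1, hC2⟩ := hC
    unfold comps at hC1
    rw [Finset.mem_image] at hC1
    obtain ⟨v, _, rfl⟩ := hC1
    have : (L H j : ℝ) ≤ (comp H v).card := by exact_mod_cast hC2
    exact this.trans (h v).le

/-- the pointwise inequality -/
theorem pw (hDET : StmDET) {n k : ℕ} (F : (Fin k → ℝ) → ℝ) {B A δ s w : ℝ} (hB : ∀ u, |F u| ≤ B)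
    (hA : 0 < A) (hδ : 0 < δ) (hs : 0 < s) (hw0 : 0 ≤ w)
    (hw : ∀ u v : Fin k → ℝ, (∀ j, 0 ≤ u j ∧ u j ≤ A) → (∀ j, 0 ≤ v j ∧ v j ≤ A) →
      (∀ j, |u j - v j| ≤ 2 * δ) → |F u - F v| ≤ w)
    (H₁ H₂ : Finset (Sym2 (Fin n))) (h12 : H₁ ⊆ H₂) (h2 : H₂ ⊆ allE n) :
    |F (fun j => (L H₁ (j + 1) : ℝ) / s) - F (fun j => (L H₂ (j + 1) : ℝ) / s)|
      ≤ w + (2 * B / (δ * s) ^ 2) * (T (A * s) H₂ - T (A * s) H₁) + 2 * B * G (A * s) H₂ := by
  have hB0 : 0 ≤ B := (abs_nonneg _).trans (hB (fun _ => 0))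
  have hK0 : 0 < A * s := by positivity
  have hTd : 0 ≤ T (A * s) H₂ - T (A * s) H₁ := by
    have := T_mono (A * s) H₁ H₂ h12 h2
    linarith
  have hG0 := G_nonneg hK0 H₂
  have hc0 : 0 ≤ 2 * B / (δ * s) ^ 2 := by positivity
  have h2B : |F (fun j => (L H₁ (j + 1) : ℝ) / s) - F (fun j => (L H₂ (j + 1) : ℝ) / s)|
      ≤ 2 * B := by
    have h1 := hB (fun j => (L H₁ (j + 1) : ℝ) / s)
    have h3 := hB (fun j => (L H₂ (j + 1) : ℝ) / s)
    rw [abs_le] at h1 h3 ⊢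
    constructor <;> linarith [h1.1, h1.2, h3.1, h3.2]
  by_cases hbig : ∃ v, A * s ≤ ((comp H₂ v).card : ℝ)
  · obtain ⟨v, hv⟩ := hbig
    have h1 := one_le_G hK0 hv
    have h3 := mul_nonneg hc0 hTd
    have h4 : 2 * B ≤ 2 * B * G (A * s) H₂ := by nlinarith
    linarith
  push Not at hbig
  have hsm1 : ∀ v, ((comp H₁ v).card : ℝ) < A * s := fun v =>
    lt_of_le_of_lt (by exact_mod_cast Finset.card_le_card (comp_mono h12 v)) (hbig v)
  have hT2 : T (A * s) H₂ = ∑ v, ((comp H₂ v).card : ℝ) :=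
    Finset.sum_congr rfl fun v _ => min_eq_left (hbig v).le
  have hT1 : T (A * s) H₁ = ∑ v, ((comp H₁ v).card : ℝ) :=
    Finset.sum_congr rfl fun v _ => min_eq_left (hsm1 v).le
  have hG1 : 0 ≤ 2 * B * G (A * s) H₂ := by positivity
  by_cases hd : (δ * s) ^ 2 ≤ T (A * s) H₂ - T (A * s) H₁
  · have h3 : 2 * B ≤ (2 * B / (δ * s) ^ 2) * (T (A * s) H₂ - T (A * s) H₁) := by
      rw [div_mul_eq_mul_div, le_div_iff₀ (by positivity)]
      exact mul_le_mul_of_nonneg_left hd (by positivity)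
    linarith
  push Not at hd
  have hdet := hDET n H₁ H₂ (δ * s) h12 (by positivity) (by rw [← hT1, ← hT2]; exact hd)
  have h3 := mul_nonneg hc0 hTd
  have h4 := hw (fun j => (L H₁ (j + 1) : ℝ) / s) (fun j => (L H₂ (j + 1) : ℝ) / s)
    (fun j => ⟨by positivity, by
      rw [div_le_iff₀ hs]; exact L_le_of hK0.le hsm1 (by omega)⟩)
    (fun j => ⟨by positivity, by
      rw [div_le_iff₀ hs]; exact L_le_of hK0.le hbig (by omega)⟩)
    (fun j => by
      have := hdet (j + 1) (by omega)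
      rw [← sub_div, abs_div, abs_of_pos hs, div_le_iff₀ hs]
      linarith)
  linarith

theorem card_allE (n : ℕ) : ((allE n).card : ℝ) = n * (n - 1) / 2 := by
  have h : (allE n).card = n.choose 2 := by
    have := Sym2.card_subtype_not_diag (α := Fin n)
    rw [Fintype.card_subtype, Fintype.card_fin] at this
    exact this
  rw [h, Nat.cast_choose_two]

/-- uniform continuity on a box -/
theorem modulus {k : ℕ} (F : (Fin k → ℝ) → ℝ) (hF : Continuous F) (A w : ℝ) (hw : 0 < w) :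
    ∃ δ : ℝ, 0 < δ ∧ ∀ u v : Fin k → ℝ, (∀ j, 0 ≤ u j ∧ u j ≤ A) → (∀ j, 0 ≤ v j ∧ v j ≤ A) →
      (∀ j, |u j - v j| ≤ 2 * δ) → |F u - F v| ≤ w := by
  have hc : IsCompact (Set.Icc (fun _ : Fin k => (0:ℝ)) (fun _ => A)) := isCompact_Icc
  have hu := hc.uniformContinuousOn_of_continuous hF.continuousOn
  rw [Metric.uniformContinuousOn_iff] at hu
  obtain ⟨δ, hδ, h⟩ := hu w hw
  refine ⟨δ / 4, by positivity, fun u v hu hv huv => ?_⟩
  have h1 := h u ⟨fun j => (hu j).1, fun j => (hu j).2⟩ v ⟨fun j => (hv j).1, fun j => (hv j).2⟩ (by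
    rw [dist_pi_lt_iff hδ]
    intro j
    rw [Real.dist_eq]
    have := huv j
    linarith)
  rw [Real.dist_eq] at h1
  exact h1.le

end Pool.Agent.T6.H44.PA
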