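import Pool.Agent.T6.H44.PA.CP2

set_option autoImplicit false

namespace Pool.Agent.T6.H44.PA

open Finset Classical Filter Topology

/-- the inequality for one `n`, with `r ^ 3 = n` -/
theorem one_n (hTEL : StmTEL) (hSW : StmSW) (hCO : StmCO) (hDET : StmDET) {n k : ℕ} (a b : ℕ)
    (hab : a ≤ b) (F : (Fin k → ℝ) → ℝ) {B A δ w r x Lm : ℝ} (hB : ∀ u, |F u| ≤ B)
    (hA : 1 ≤ A) (hδ : 0 < δ) (hw0 : 0 ≤ w)
    (hw : ∀ u v : Fin k → ℝ, (∀ j, 0 ≤ u j ∧ u j ≤ A) → (∀ j, 0 ≤ v j ∧ v j ≤ A) →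
      (∀ j, |u j - v j| ≤ 2 * δ) → |F u - F v| ≤ w)
    (hr : r ^ 3 = n) (hr5 : 6 ≤ r) (hx : x = 3 * Real.sqrt n) (hL0 : 0 ≤ Lm) (hr8 : 8 * (Lm + 8) ≤ r)
    (hb : (b : ℝ) ≤ n / 2 * (1 + Lm / r)) (ha : (n : ℝ) / 4 ≤ a) :
    |um (n := n) a (fun H => F (fun j => (L H (j + 1) : ℝ) / r ^ 2))
      - um (n := n) b (fun H => F (fun j => (L H (j + 1) : ℝ) / r ^ 2))| ≤
      w + (16 * B * (6 * Real.sqrt A + 16 * (Lm + 8) * A) ^ 2 / δ ^ 2) *
        (((b : ℝ) - a + 2 * x) / r ^ 2) + 4 * B / A * (6 + 16 * (Lm + 8)) := by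
  have hB0 : 0 ≤ B := (abs_nonneg _).trans (hB (fun _ => 0))
  have hr0 : 0 < r := by linarith
  have hA0 : 0 < A := by linarith
  have hn216 : (216 : ℝ) ≤ n := by
    rw [← hr]
    have : (6:ℝ) ^ 3 ≤ r ^ 3 := pow_le_pow_left₀ (by norm_num) hr5 3
    norm_num at this
    exact this
  have hn0 : (0:ℝ) < n := by linarith
  have hsn : Real.sqrt n ^ 2 = n := Real.sq_sqrt hn0.le
  have hsn0 : 0 < Real.sqrt n := Real.sqrt_pos.2 hn0
  have hx0 : 0 < x := by rw [hx]; positivity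
  have hx2 : x ^ 2 = 9 * n := by rw [hx, mul_pow, hsn]; norm_num
  have hsn12 : 12 ≤ Real.sqrt n := by
    apply Real.le_sqrt_of_sq_le
    have : (12:ℝ) ^ 2 = 144 := by norm_num
    rw [this]; linarith
  have hxn4 : x ≤ n / 4 := by
    rw [hx]; nlinarith
  have hLr : Lm / r ≤ 1 / 8 := by
    rw [div_le_iff₀ hr0]; linarith
  have hbn : (b : ℝ) ≤ n := by nlinarith
  have hN := card_allE n
  have hbN : (b : ℝ) + x ≤ (allE n).card := by rw [hN]; nlinarith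
  have hN0 : (0:ℝ) < (allE n).card := by rw [hN]; nlinarith
  have hN4 : (n:ℝ) ^ 2 / 4 ≤ (allE n).card := by rw [hN]; nlinarith
  set ε := (Lm + 8) / r with hε
  have hε0 : 0 ≤ ε := by positivity
  have hε1 : ε ≤ 1 / 8 := by rw [hε, div_le_iff₀ hr0]; linarith
  have hp : ((b : ℝ) + x) / (allE n).card ≤ 1 / 16 := by
    rw [div_le_iff₀ hN0, hN]; nlinarith
  have hxr : x ≤ 3 * r ^ 2 := by
    have h1 : x ^ 2 ≤ (3 * r ^ 2) ^ 2 := by
      rw [hx2, ← hr]; nlinarith [pow_pos hr0 3]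
    exact abs_le_of_sq_le_sq' h1 (by positivity) |>.2
  have hnp : (n : ℝ) * (((b : ℝ) + x) / (allE n).card) ≤ 1 + ε := by
    rw [mul_div_assoc', div_le_iff₀ hN0, hN]
    have h1 : 2 * ((b : ℝ) + x) ≤ (1 + ε) * (n - 1) := by
      have h2 : 2 * (b : ℝ) ≤ n + Lm * r ^ 2 := by
        have : (n : ℝ) / 2 * (1 + Lm / r) = n / 2 + Lm * r ^ 2 / 2 := by
          rw [← hr]; field_simp
        linarith
      have h3 : (1 + ε) * ((n:ℝ) - 1) = n - 1 + (Lm + 8) * r ^ 2 - ε := by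
        rw [hε, ← hr]; field_simp; ring
      rw [h3]
      nlinarith [pow_pos hr0 2]
    nlinarith
  set c := 2 * B / (δ * r ^ 2) ^ 2 with hc
  have hc0 : 0 ≤ c := by positivity
  have hK1 : 1 ≤ A * r ^ 2 := by nlinarith
  have key := cp1 hTEL hSW hCO a b hab x (A * r ^ 2) ε (2 * B) w c hx0 (by rw [hx2]; linarith)
    (by linarith) hbN hK1 hε0 hε1 hp hnp (by positivity) hc0
    (fun H => F (fun j => (L H (j + 1) : ℝ) / r ^ 2))
    (fun H₁ H₂ h12 h2 => pw hDET F hB hA0 hδ (by positivity) hw0 hw H₁ H₂ h12 h2)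
  refine key.trans ?_
  have hsK : Real.sqrt (A * r ^ 2) = Real.sqrt A * r := by
    rw [Real.sqrt_mul hA0.le, Real.sqrt_sq hr0.le]
  have hsA : 1 ≤ Real.sqrt A := by rw [Real.one_le_sqrt]; exact hA
  have hab' : (a : ℝ) ≤ b := by exact_mod_cast hab
  have hd0 : 0 ≤ (b : ℝ) - a + 2 * x := by linarith
  have e1 : (n : ℝ) * (6 * Real.sqrt (A * r ^ 2) + 16 * ε * (A * r ^ 2))
      = r ^ 4 * (6 * Real.sqrt A + 16 * (Lm + 8) * A) := by
    rw [hsK, hε, ← hr]; field_simp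
  have e2 : c * (2 * (((b : ℝ) - a + 2 * x) / (allE n).card *
      (n * (6 * Real.sqrt (A * r ^ 2) + 16 * ε * (A * r ^ 2))) ^ 2)) ≤
      (16 * B * (6 * Real.sqrt A + 16 * (Lm + 8) * A) ^ 2 / δ ^ 2) *
        (((b : ℝ) - a + 2 * x) / r ^ 2) := by
    rw [e1]
    set Q := (6 * Real.sqrt A + 16 * (Lm + 8) * A) with hQ
    have h1 : ((b : ℝ) - a + 2 * x) / (allE n).card ≤ ((b : ℝ) - a + 2 * x) / ((n:ℝ) ^ 2 / 4) :=
      div_le_div_of_nonneg_left hd0 (by positivity) hN4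
    calc c * (2 * (((b : ℝ) - a + 2 * x) / (allE n).card * (r ^ 4 * Q) ^ 2))
        ≤ c * (2 * (((b : ℝ) - a + 2 * x) / ((n:ℝ) ^ 2 / 4) * (r ^ 4 * Q) ^ 2)) := by
          refine mul_le_mul_of_nonneg_left (mul_le_mul_of_nonneg_left
            (mul_le_mul_of_nonneg_right h1 (by positivity)) (by norm_num)) hc0
      _ = _ := by
          rw [hc, ← hr]; field_simp; ring
  have e3 : 2 * B * (2 * ((n:ℝ) / (A * r ^ 2) * (6 / Real.sqrt (A * r ^ 2) + 16 * ε)))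
      ≤ 4 * B / A * (6 + 16 * (Lm + 8)) := by
    rw [hsK, hε, ← hr]
    have h1 : 2 * B * (2 * (r ^ 3 / (A * r ^ 2) * (6 / (Real.sqrt A * r) + 16 * ((Lm + 8) / r))))
        = 4 * B / A * (6 / Real.sqrt A + 16 * (Lm + 8)) := by
      field_simp; ring
    rw [h1]
    have h2 : 6 / Real.sqrt A ≤ 6 := by
      rw [div_le_iff₀ (by linarith)]; linarith
    exact mul_le_mul_of_nonneg_left (by linarith) (by positivity)
  linarith

end Pool.Agent.T6.H44.PA
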