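import Pool.Agent.T6.H44.PA.CP3

set_option autoImplicit false

namespace Pool.Agent.T6.H44.PA

open Finset Classical Filter Topology

theorem abs_floor_sub {X Y : ℝ} (hX : 0 ≤ X) (hY : 0 ≤ Y) :
    |((⌊X⌋₊ : ℕ) : ℝ) - ((⌊Y⌋₊ : ℕ) : ℝ)| ≤ |X - Y| + 1 := by
  have h1 := Nat.floor_le hX
  have h2 := Nat.lt_floor_add_one X
  have h3 := Nat.floor_le hY
  have h4 := Nat.lt_floor_add_one Y
  rw [abs_le]
  have h5 := le_abs_self (X - Y)
  have h6 := neg_abs_le (X - Y)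
  constructor <;> linarith

theorem rn3 (n : ℕ) : (((n : ℝ) ^ (1 / 3 : ℝ)) ^ 3 : ℝ) = n := by
  rw [← Real.rpow_natCast, ← Real.rpow_mul (Nat.cast_nonneg n)]
  norm_num

theorem rn2 (n : ℕ) : (((n : ℝ) ^ (1 / 3 : ℝ)) ^ 2 : ℝ) = (n : ℝ) ^ (2 / 3 : ℝ) := by
  rw [← Real.rpow_natCast, ← Real.rpow_mul (Nat.cast_nonneg n)]
  norm_num

theorem tend_r : Tendsto (fun n : ℕ => (n : ℝ) ^ (1 / 3 : ℝ)) atTop atTop :=
  (tendsto_rpow_atTop (by norm_num)).comp tendsto_natCast_atTop_atTop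

theorem tend_sr : Tendsto (fun n : ℕ => Real.sqrt n / ((n : ℝ) ^ (1 / 3 : ℝ)) ^ 2) atTop (𝓝 0) := by
  have h1 : Tendsto (fun n : ℕ => (n : ℝ) ^ (-(1 / 6) : ℝ)) atTop (𝓝 0) :=
    (tendsto_rpow_neg_atTop (by norm_num)).comp tendsto_natCast_atTop_atTop
  refine h1.congr' ?_
  filter_upwards [eventually_gt_atTop 0] with n hn
  have hn0 : (0:ℝ) < n := by exact_mod_cast hn
  rw [rn2, Real.sqrt_eq_rpow, ← Real.rpow_sub hn0]
  norm_num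

/-- two sequences in the window at distance `o(n ^ (2/3))` -/
theorem two_seq (hTEL : StmTEL) (hSW : StmSW) (hCO : StmCO) (hDET : StmDET) {k : ℕ}
    (F : (Fin k → ℝ) → ℝ) (hF : Continuous F) {B : ℝ} (hB : ∀ u, |F u| ≤ B) (m m' : ℕ → ℕ)
    {Lm : ℝ} (hL : 0 ≤ Lm)
    (h1 : ∀ᶠ n : ℕ in atTop, (n : ℝ) / 4 ≤ m n ∧ (m n : ℝ) ≤ n / 2 * (1 + Lm / (n : ℝ) ^ (1 / 3 : ℝ)))
    (h2 : ∀ᶠ n : ℕ in atTop, (n : ℝ) / 4 ≤ m' n ∧
      (m' n : ℝ) ≤ n / 2 * (1 + Lm / (n : ℝ) ^ (1 / 3 : ℝ)))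
    (h3 : Tendsto (fun n : ℕ => |(m n : ℝ) - m' n| / ((n : ℝ) ^ (1 / 3 : ℝ)) ^ 2) atTop (𝓝 0)) :
    Tendsto (fun n : ℕ =>
      um (n := n) (m n) (fun H => F (fun j => (L H (j + 1) : ℝ) / ((n : ℝ) ^ (1 / 3 : ℝ)) ^ 2))
      - um (n := n) (m' n) (fun H => F (fun j => (L H (j + 1) : ℝ) / ((n : ℝ) ^ (1 / 3 : ℝ)) ^ 2)))
      atTop (𝓝 0) := by
  have hB0 : 0 ≤ B := (abs_nonneg _).trans (hB (fun _ => 0))
  rw [Metric.tendsto_atTop']
  intro η hη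
  set A := max 1 (12 * B * (6 + 16 * (Lm + 8)) / η) with hAd
  have hA1 : 1 ≤ A := le_max_left _ _
  have hA2 : 4 * B / A * (6 + 16 * (Lm + 8)) ≤ η / 3 := by
    have hA0 : 0 < A := by linarith
    have h4 : 12 * B * (6 + 16 * (Lm + 8)) / η ≤ A := le_max_right _ _
    rw [div_le_iff₀ hη] at h4
    rw [div_mul_eq_mul_div, div_le_iff₀ hA0]
    linarith
  obtain ⟨δ, hδ, hmod⟩ := modulus F hF A (η / 3) (by positivity)
  set C := 16 * B * (6 * Real.sqrt A + 16 * (Lm + 8) * A) ^ 2 / δ ^ 2 with hC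
  have hmid : Tendsto (fun n : ℕ => C * (|(m n : ℝ) - m' n| / ((n : ℝ) ^ (1 / 3 : ℝ)) ^ 2
      + 6 * (Real.sqrt n / ((n : ℝ) ^ (1 / 3 : ℝ)) ^ 2))) atTop (𝓝 0) := by
    have := (h3.add (tend_sr.const_mul 6)).const_mul C
    simpa using this
  have hmid' := (tendsto_order.1 hmid).2 (η / 3) (by positivity)
  have hr6 := tend_r.eventually_ge_atTop 6
  have hr8 := tend_r.eventually_ge_atTop (8 * (Lm + 8))
  have hev : ∀ᶠ n : ℕ in atTop, |um (n := n) (m n)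
        (fun H => F (fun j => (L H (j + 1) : ℝ) / ((n : ℝ) ^ (1 / 3 : ℝ)) ^ 2))
      - um (n := n) (m' n)
        (fun H => F (fun j => (L H (j + 1) : ℝ) / ((n : ℝ) ^ (1 / 3 : ℝ)) ^ 2))| < η := by
    filter_upwards [h1, h2, hmid', hr6, hr8] with n hn1 hn2 hn3 hn4 hn5
    have hr2 : 0 < ((n : ℝ) ^ (1 / 3 : ℝ)) ^ 2 := by positivity
    rcases le_total (m n) (m' n) with hle | hle
    · have h5 := one_n hTEL hSW hCO hDET (m n) (m' n) hle F hB hA1 hδ (by positivity) hmod (rn3 n)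
        hn4 rfl hL hn5 hn2.2 hn1.1
      refine lt_of_le_of_lt h5 ?_
      have hle' : (m n : ℝ) ≤ m' n := by exact_mod_cast hle
      have e1 : |(m n : ℝ) - m' n| = m' n - m n := by
        rw [abs_sub_comm, abs_of_nonneg (by linarith)]
      rw [e1] at hn3
      have e2 : C * (((m' n : ℝ) - m n) / ((n : ℝ) ^ (1 / 3 : ℝ)) ^ 2
          + 6 * (Real.sqrt n / ((n : ℝ) ^ (1 / 3 : ℝ)) ^ 2))
          = C * (((m' n : ℝ) - m n + 2 * (3 * Real.sqrt n)) / ((n : ℝ) ^ (1 / 3 : ℝ)) ^ 2) := by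
        ring
      rw [e2] at hn3
      linarith
    · rw [abs_sub_comm]
      have h5 := one_n hTEL hSW hCO hDET (m' n) (m n) hle F hB hA1 hδ (by positivity) hmod (rn3 n)
        hn4 rfl hL hn5 hn1.2 hn2.1
      refine lt_of_le_of_lt h5 ?_
      have hle' : (m' n : ℝ) ≤ m n := by exact_mod_cast hle
      have e1 : |(m n : ℝ) - m' n| = m n - m' n := by
        rw [abs_of_nonneg (by linarith)]
      rw [e1] at hn3
      have e2 : C * (((m n : ℝ) - m' n) / ((n : ℝ) ^ (1 / 3 : ℝ)) ^ 2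
          + 6 * (Real.sqrt n / ((n : ℝ) ^ (1 / 3 : ℝ)) ^ 2))
          = C * (((m n : ℝ) - m' n + 2 * (3 * Real.sqrt n)) / ((n : ℝ) ^ (1 / 3 : ℝ)) ^ 2) := by
        ring
      rw [e2] at hn3
      linarith
  obtain ⟨N, hN⟩ := eventually_atTop.1 hev
  refine ⟨N, fun n hn => ?_⟩
  rw [Real.dist_eq, sub_zero]
  exact hN n hn.le

end Pool.Agent.T6.H44.PA
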