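import Pool.Agent.H890.C.Ghost

/-!
# Preferential attachment graph process near the Erdős–Rényi process (MP_e39611_pr, Q2)

Definitions and statements of the modules.
-/

set_option autoImplicit false

namespace Pool.Agent.T6.H44.PA

open Finset Classical Filter Topology
open Pool.Agent.H890.C (ex cl)

/-- the edges of the complete graph on `n` vertices -/
noncomputable def allE (n : ℕ) : Finset (Sym2 (Fin n)) := univ.filter (fun e => ¬ e.IsDiag)

/-- degree of `v` in the graph with edge set `H` -/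
noncomputable def deg {n : ℕ} (H : Finset (Sym2 (Fin n))) (v : Fin n) : ℕ :=
  (H.filter (fun e => v ∈ e)).card

/-- the weight `(d_v + α) (d_w + α)` of the edge `{v, w}` over the graph `H` -/
noncomputable def wgt {n : ℕ} (α : ℝ) (H : Finset (Sym2 (Fin n))) (e : Sym2 (Fin n)) : ℝ :=
  ∏ v ∈ univ.filter (fun v => v ∈ e), ((deg H v : ℝ) + α)

/-- the law of the edge set after `m` steps, if the next edge is chosen among the edges not
present with probability proportional to its weight `w` -/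
noncomputable def law {n : ℕ} (w : Finset (Sym2 (Fin n)) → Sym2 (Fin n) → ℝ) :
    ℕ → Finset (Sym2 (Fin n)) → ℝ
  | 0, H => if H = ∅ then 1 else 0
  | m + 1, H => ∑ e ∈ H ∩ allE n, law w m (H.erase e) *
      (w (H.erase e) e / ∑ f ∈ allE n \ H.erase e, w (H.erase e) f)

/-- the law of the uniform graph with `m` edges -/
noncomputable def er {n : ℕ} (m : ℕ) (H : Finset (Sym2 (Fin n))) : ℝ :=
  if H ⊆ allE n ∧ H.card = m then 1 / ((allE n).card.choose m : ℝ) else 0

/-- the component of `v` in the graph with edge set `H` -/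
noncomputable def comp {n : ℕ} (H : Finset (Sym2 (Fin n))) (v : Fin n) : Finset (Fin n) :=
  univ.filter (fun w => (SimpleGraph.fromEdgeSet (H : Set (Sym2 (Fin n)))).Reachable v w)

/-- the set of the components of the graph with edge set `H` -/
noncomputable def comps {n : ℕ} (H : Finset (Sym2 (Fin n))) : Finset (Finset (Fin n)) :=
  univ.image (comp H)

/-- the number of vertices of the `j`-th largest component (`j ≥ 1`), `0` if there are fewer than
`j` components: the largest `s` such that at least `j` components have at least `s` vertices -/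
noncomputable def L {n : ℕ} (H : Finset (Sym2 (Fin n))) (j : ℕ) : ℕ :=
  Nat.findGreatest (fun s => j ≤ ((comps H).filter (fun C => s ≤ C.card)).card) n

/-- the truncated susceptibility -/
noncomputable def T {n : ℕ} (K : ℝ) (H : Finset (Sym2 (Fin n))) : ℝ :=
  ∑ v, min ((comp H v).card : ℝ) K

/-- the mean of `f` over the graphs with `k` edges -/
noncomputable def um {n : ℕ} (k : ℕ) (f : Finset (Sym2 (Fin n)) → ℝ) : ℝ :=
  (∑ H ∈ (allE n).powersetCard k, f H) / ((allE n).card.choose k : ℝ)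

/-- constant edge probability `π` on the edges -/
noncomputable def pc (n : ℕ) (π : ℝ) : Sym2 (Fin n) → ℝ := fun e => if e.IsDiag then 0 else π

/-- the edge set of a configuration -/
noncomputable def ed {n : ℕ} (ω : Sym2 (Fin n) → Bool) : Finset (Sym2 (Fin n)) :=
  (allE n).filter (fun e => ω e = true)

/-- the mean of `f` over the binomial random graph with edge probability `π` -/
noncomputable def gp {n : ℕ} (π : ℝ) (f : Finset (Sym2 (Fin n)) → ℝ) : ℝ :=
  ex (pc n π) (fun ω => f (ed ω))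

/-- BR: the two notions of component agree -/
def StmBR : Prop := ∀ (n : ℕ) (ω : Sym2 (Fin n) → Bool) (v : Fin n), comp (ed ω) v = cl ω univ v

/-- GB: bounds for the truncated cluster size in the critical window -/
def StmGB : Prop := ∀ (n : ℕ) (π ε K : ℝ) (v : Fin n), 0 ≤ π → π ≤ 1 / 16 → (n : ℝ) * π ≤ 1 + ε →
  0 ≤ ε → ε ≤ 1 / 8 → 1 ≤ K →
  gp π (fun H => min ((comp H v).card : ℝ) K) ≤ 6 * Real.sqrt K + 16 * ε * K ∧
  gp π (fun H => if K ≤ ((comp H v).card : ℝ) then 1 else 0) ≤ 6 / Real.sqrt K + 16 * ε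

/-- TEL: growth of the truncated susceptibility of the binomial random graph -/
def StmTEL : Prop := ∀ (n : ℕ) (π₁ π₂ K : ℝ), 0 ≤ π₁ → π₁ ≤ π₂ → π₂ ≤ 1 → 0 ≤ K →
  gp π₂ (T (n := n) K) - gp π₁ (T (n := n) K) ≤ (π₂ - π₁) * gp π₂ (T (n := n) K) ^ 2

/-- monotone functions of the graph -/
def Mono {n : ℕ} (f : Finset (Sym2 (Fin n)) → ℝ) : Prop :=
  ∀ H₁ H₂ : Finset (Sym2 (Fin n)), H₁ ⊆ H₂ → H₂ ⊆ allE n → f H₁ ≤ f H₂

/-- SW: from the binomial to the uniform random graph, for monotone functions -/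
def StmSW : Prop := ∀ (n m₁ m₂ : ℕ) (x : ℝ) (f : Finset (Sym2 (Fin n)) → ℝ), Mono f → m₁ ≤ m₂ →
  0 < x → 4 * ((m₂ : ℝ) + x) ≤ x ^ 2 → x ≤ m₁ → (m₂ : ℝ) + x ≤ (allE n).card →
  (um m₂ f - um m₁ f ≤ 2 * (gp (((m₂ : ℝ) + x) / (allE n).card) f
    - gp (((m₁ : ℝ) - x) / (allE n).card) f)) ∧
  ((∀ H, 0 ≤ f H) → um m₂ f ≤ 2 * gp (((m₂ : ℝ) + x) / (allE n).card) f)

/-- CO: comparison of the means over graphs with `k₁ ≤ k₂` edges -/
def StmCO : Prop := ∀ (n k₁ k₂ : ℕ) (A B : Finset (Sym2 (Fin n)) → ℝ), k₁ ≤ k₂ →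
  k₂ ≤ (allE n).card →
  (∀ H₁ H₂ : Finset (Sym2 (Fin n)), H₁ ⊆ H₂ → H₂ ⊆ allE n → H₁.card = k₁ → H₂.card = k₂ →
    A H₁ ≤ B H₂) → um k₁ A ≤ um k₂ B

/-- DET: if the susceptibilities of two nested graphs are close, then so are the sizes of the
`j`-th largest components -/
def StmDET : Prop := ∀ (n : ℕ) (H₁ H₂ : Finset (Sym2 (Fin n))) (θ : ℝ), H₁ ⊆ H₂ → 0 < θ →
  ∑ v, ((comp H₂ v).card : ℝ) - ∑ v, ((comp H₁ v).card : ℝ) < θ ^ 2 →
  ∀ j : ℕ, 1 ≤ j → |(L H₁ j : ℝ) - L H₂ j| ≤ 2 * θ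

/-- TVA: comparison of a weighted process with the uniform one, `D` is an upper bound for the
mean of the logarithm defect -/
def StmTVA : Prop := ∀ (n m : ℕ) (w : Finset (Sym2 (Fin n)) → Sym2 (Fin n) → ℝ)
  (D : Finset (Sym2 (Fin n)) → ℝ), (∀ H e, 0 < w H e) → m ≤ (allE n).card →
  (∀ H : Finset (Sym2 (Fin n)), H ⊆ allE n → H.card < m →
    Real.log ((∑ e ∈ allE n \ H, w H e) / ((allE n).card - H.card : ℝ))
      - (∑ e ∈ allE n \ H, Real.log (w H e)) / ((allE n).card - H.card : ℝ) ≤ D H) →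
  ∑ H : Finset (Sym2 (Fin n)), |law w m H - er m H| ≤ 2 * Real.sqrt (∑ t ∈ range m, um t D)

/-- TVB: total variation distance of the preferential attachment and the uniform graph -/
def StmTVB : Prop := ∀ (n m : ℕ) (α : ℝ), 2 ≤ n → 0 < α → 2 * m ≤ (allE n).card →
  ∑ H : Finset (Sym2 (Fin n)), |law (wgt α) m H - er m H|
    ≤ 4 * m / (α * Real.sqrt n) * Real.sqrt (1 + 3 * m / n)

end Pool.Agent.T6.H44.PA
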