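import Pool.Agent.T6.H44.PA.CP4

set_option autoImplicit false

namespace Pool.Agent.T6.H44.PA

open Finset Classical Filter Topology

theorem tvlim (hTVB : StmTVB) (α : ℕ → ℝ) (m : ℕ → ℕ) {C : ℝ} (hC : 0 ≤ C) (hα0 : ∀ n, 0 < α n)
    (hα : Tendsto (fun n : ℕ => α n / Real.sqrt n) atTop atTop)
    (hm : ∀ᶠ n : ℕ in atTop, (m n : ℝ) ≤ C * n) :
    Tendsto (fun n : ℕ => ∑ H : Finset (Sym2 (Fin n)), |law (wgt (α n)) (m n) H - er (m n) H|)
      atTop (𝓝 0) := by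
  have hq : Tendsto (fun n : ℕ => (4 * C * Real.sqrt (1 + 3 * C)) * (α n / Real.sqrt n)⁻¹)
      atTop (𝓝 0) := by
    have := (tendsto_inv_atTop_zero.comp hα).const_mul (4 * C * Real.sqrt (1 + 3 * C))
    simpa using this
  refine squeeze_zero' (Eventually.of_forall fun n =>
    Finset.sum_nonneg fun H _ => abs_nonneg _) ?_ hq
  have hn : ∀ᶠ n : ℕ in atTop, 4 * C + 2 ≤ (n : ℝ) :=
    (tendsto_natCast_atTop_atTop (R := ℝ)).eventually_ge_atTop _
  filter_upwards [hm, hn] with n h1 h2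
  have hn0 : (0:ℝ) < n := by linarith
  have hn2 : 2 ≤ n := by
    have : (2:ℝ) ≤ n := by linarith
    exact_mod_cast this
  have h3 : 2 * m n ≤ (allE n).card := by
    have : (2 * (m n : ℝ)) ≤ (allE n).card := by
      rw [card_allE]; nlinarith
    exact_mod_cast this
  refine (hTVB n (m n) (α n) hn2 (hα0 n) h3).trans ?_
  have hs0 : 0 < Real.sqrt n := Real.sqrt_pos.2 hn0
  have hs2 : Real.sqrt n * Real.sqrt n = n := Real.mul_self_sqrt hn0.le
  have h4 : Real.sqrt (1 + 3 * (m n : ℝ) / n) ≤ Real.sqrt (1 + 3 * C) := by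
    apply Real.sqrt_le_sqrt
    have : 3 * (m n : ℝ) / n ≤ 3 * C := by
      rw [div_le_iff₀ hn0]; linarith
    linarith
  have h5 : 4 * (m n : ℝ) / (α n * Real.sqrt n) ≤ 4 * C * (α n / Real.sqrt n)⁻¹ := by
    rw [inv_div, mul_div_assoc', div_le_div_iff₀ (mul_pos (hα0 n) hs0) (hα0 n)]
    have h6 : 4 * (m n : ℝ) * α n ≤ 4 * (C * n) * α n :=
      mul_le_mul_of_nonneg_right (by linarith) (hα0 n).le
    calc 4 * (m n : ℝ) * α n ≤ 4 * (C * n) * α n := h6
      _ = 4 * (C * (Real.sqrt n * Real.sqrt n)) * α n := by rw [hs2]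
      _ = 4 * C * Real.sqrt n * (α n * Real.sqrt n) := by ring
  calc 4 * (m n : ℝ) / (α n * Real.sqrt n) * Real.sqrt (1 + 3 * (m n : ℝ) / n)
      ≤ (4 * C * (α n / Real.sqrt n)⁻¹) * Real.sqrt (1 + 3 * C) :=
        mul_le_mul h5 h4 (Real.sqrt_nonneg _) (by
          have := hα0 n
          positivity)
    _ = _ := by ring

theorem sum_er {n : ℕ} (m : ℕ) (f : Finset (Sym2 (Fin n)) → ℝ) :
    ∑ H : Finset (Sym2 (Fin n)), er m H * f H = um m f := by
  unfold er um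
  simp_rw [ite_mul, zero_mul]
  rw [← Finset.sum_filter, Finset.sum_div]
  have : (univ : Finset (Finset (Sym2 (Fin n)))).filter (fun H => H ⊆ allE n ∧ H.card = m)
      = (allE n).powersetCard m := by
    ext H; simp [Finset.mem_powersetCard]
  rw [this]
  exact Finset.sum_congr rfl fun H _ => by ring

/-- the window -/
theorem window (lam : ℝ) (α ε : ℕ → ℝ) (m m' : ℕ → ℕ) (hα0 : ∀ n, 0 < α n)
    (hα : Tendsto (fun n : ℕ => α n / Real.sqrt n) atTop atTop)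
    (hε : Tendsto (fun n : ℕ => ε n * (n : ℝ) ^ (1 / 3 : ℝ)) atTop (𝓝 lam))
    (hm : ∀ n : ℕ, m n = ⌊(n * α n / (2 * (α n + 1))) * (1 + ε n)⌋₊)
    (hm' : ∀ n : ℕ, m' n = ⌊((n : ℝ) / 2) * (1 + lam / (n : ℝ) ^ (1 / 3 : ℝ))⌋₊) :
    (∀ᶠ n : ℕ in atTop, (n : ℝ) / 4 ≤ m n ∧
      (m n : ℝ) ≤ n / 2 * (1 + (|lam| + 1) / (n : ℝ) ^ (1 / 3 : ℝ))) ∧
    (∀ᶠ n : ℕ in atTop, (n : ℝ) / 4 ≤ m' n ∧
      (m' n : ℝ) ≤ n / 2 * (1 + (|lam| + 1) / (n : ℝ) ^ (1 / 3 : ℝ))) ∧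
    Tendsto (fun n : ℕ => |(m n : ℝ) - m' n| / ((n : ℝ) ^ (1 / 3 : ℝ)) ^ 2) atTop (𝓝 0) := by
  have hr := tend_r
  have hε0 : Tendsto ε atTop (𝓝 0) := by
    have h1 := hε.div_atTop hr
    refine h1.congr' ?_
    filter_upwards [hr.eventually_gt_atTop 0] with n hn
    field_simp
  have hq : Tendsto (fun n : ℕ => Real.sqrt n / α n) atTop (𝓝 0) := by
    have := tendsto_inv_atTop_zero.comp hα
    refine this.congr fun n => ?_
    simp [Function.comp, inv_div]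
  have hrα : Tendsto (fun n : ℕ => (n : ℝ) ^ (1 / 3 : ℝ) / α n) atTop (𝓝 0) := by
    refine squeeze_zero' (Eventually.of_forall fun n => div_nonneg (by positivity) (hα0 n).le) ?_ hq
    filter_upwards [eventually_ge_atTop 1] with n hn
    refine div_le_div_of_nonneg_right ?_ (hα0 n).le
    rw [Real.sqrt_eq_rpow]
    exact Real.rpow_le_rpow_of_exponent_le (by exact_mod_cast hn) (by norm_num)
  have hα1 : Tendsto (fun n : ℕ => 1 / α n) atTop (𝓝 0) := by
    refine squeeze_zero' (Eventually.of_forall fun n => div_nonneg zero_le_one (hα0 n).le) ?_ hq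
    filter_upwards [eventually_ge_atTop 1] with n hn
    refine div_le_div_of_nonneg_right ?_ (hα0 n).le
    rw [Real.one_le_sqrt]
    exact_mod_cast hn
  have e1 := (tendsto_order.1 hε0).1 (-(1/10)) (by norm_num)
  have e2 := (tendsto_order.1 hα1).2 (1/10) (by norm_num)
  have e3 := (tendsto_order.1 hε).2 (|lam| + 1) (by linarith [le_abs_self lam])
  have e4 := hr.eventually_ge_atTop (10 * (|lam| + 1))
  have e5 := hr.eventually_ge_atTop 10
  have hX : ∀ᶠ n : ℕ in atTop, (n : ℝ) / 4 + 1 ≤ (n * α n / (2 * (α n + 1))) * (1 + ε n) ∧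
      (n * α n / (2 * (α n + 1))) * (1 + ε n) ≤ n / 2 * (1 + (|lam| + 1) / (n : ℝ) ^ (1 / 3 : ℝ)) := by
    filter_upwards [e1, e2, e3, e4, e5] with n h1 h2 h3 h4 h5
    have hα' := hα0 n
    have hr0 : 0 < (n : ℝ) ^ (1 / 3 : ℝ) := by linarith
    have hn := rn3 n
    set r := (n : ℝ) ^ (1 / 3 : ℝ) with hrd
    have hn1000 : (1000:ℝ) ≤ n := by
      rw [← hn]
      have : (10:ℝ) ^ 3 ≤ r ^ 3 := pow_le_pow_left₀ (by norm_num) h5 3
      norm_num at this; exact this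
    have h6 : (9:ℝ) / 10 ≤ α n / (α n + 1) := by
      rw [div_lt_iff₀ hα'] at h2
      rw [le_div_iff₀ (by linarith)]; linarith
    have h7 : α n / (α n + 1) ≤ 1 := by
      rw [div_le_one (by linarith)]; linarith
    have h8 : (n : ℝ) * α n / (2 * (α n + 1)) = n / 2 * (α n / (α n + 1)) := by
      field_simp
    have h9 : ε n ≤ (|lam| + 1) / r := by
      rw [le_div_iff₀ hr0]; exact h3.le
    rw [h8]
    constructor
    · have : (9:ℝ)/10 * (9/10) ≤ α n / (α n + 1) * (1 + ε n) :=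
        mul_le_mul h6 (by linarith) (by norm_num) (by linarith)
      nlinarith
    · have : α n / (α n + 1) * (1 + ε n) ≤ 1 * (1 + (|lam| + 1) / r) :=
        mul_le_mul h7 (by linarith) (by linarith) (by norm_num)
      nlinarith
  have hY : ∀ᶠ n : ℕ in atTop, (n : ℝ) / 4 + 1 ≤ ((n : ℝ) / 2) * (1 + lam / (n : ℝ) ^ (1 / 3 : ℝ)) ∧
      ((n : ℝ) / 2) * (1 + lam / (n : ℝ) ^ (1 / 3 : ℝ))
        ≤ n / 2 * (1 + (|lam| + 1) / (n : ℝ) ^ (1 / 3 : ℝ)) := by
    filter_upwards [e4, e5] with n h4 h5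
    have hr0 : 0 < (n : ℝ) ^ (1 / 3 : ℝ) := by linarith
    have hn := rn3 n
    set r := (n : ℝ) ^ (1 / 3 : ℝ) with hrd
    have hn1000 : (1000:ℝ) ≤ n := by
      rw [← hn]
      have : (10:ℝ) ^ 3 ≤ r ^ 3 := pow_le_pow_left₀ (by norm_num) h5 3
      norm_num at this; exact this
    have h6 : -(1/10) ≤ lam / r := by
      rw [le_div_iff₀ hr0]
      have := neg_abs_le lam
      linarith
    have h7 : lam / r ≤ (|lam| + 1) / r :=
      div_le_div_of_nonneg_right (by linarith [le_abs_self lam]) hr0.le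
    constructor <;> nlinarith
  refine ⟨?_, ?_, ?_⟩
  · filter_upwards [hX] with n hn
    rw [hm n]
    have h0 : (0:ℝ) ≤ (n * α n / (2 * (α n + 1))) * (1 + ε n) := by
      have : (0:ℝ) ≤ n := Nat.cast_nonneg n
      linarith [hn.1]
    have h1 := Nat.floor_le h0
    have h2 := Nat.lt_floor_add_one ((n * α n / (2 * (α n + 1))) * (1 + ε n))
    constructor <;> linarith [hn.1, hn.2]
  · filter_upwards [hY] with n hn
    rw [hm' n]
    have h0 : (0:ℝ) ≤ ((n : ℝ) / 2) * (1 + lam / (n : ℝ) ^ (1 / 3 : ℝ)) := by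
      have : (0:ℝ) ≤ n := Nat.cast_nonneg n
      linarith [hn.1]
    have h1 := Nat.floor_le h0
    have h2 := Nat.lt_floor_add_one (((n : ℝ) / 2) * (1 + lam / (n : ℝ) ^ (1 / 3 : ℝ)))
    constructor <;> linarith [hn.1, hn.2]
  · have hlim : Tendsto (fun n : ℕ => (1/2) * |ε n * (n : ℝ) ^ (1 / 3 : ℝ) - lam|
        + (1/2) * ((1 + |ε n|) * ((n : ℝ) ^ (1 / 3 : ℝ) / α n))
        + ((n : ℝ) ^ (1 / 3 : ℝ))⁻¹ * ((n : ℝ) ^ (1 / 3 : ℝ))⁻¹) atTop (𝓝 0) := by
      have t1 : Tendsto (fun n : ℕ => (1/2) * |ε n * (n : ℝ) ^ (1 / 3 : ℝ) - lam|) atTop (𝓝 0) := by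
        have := ((hε.sub_const lam).abs).const_mul (1/2)
        simpa using this
      have t2 : Tendsto (fun n : ℕ => (1/2) * ((1 + |ε n|) * ((n : ℝ) ^ (1 / 3 : ℝ) / α n)))
          atTop (𝓝 0) := by
        have := (((hε0.abs).const_add 1).mul hrα).const_mul (1/2)
        simpa using this
      have t3 : Tendsto (fun n : ℕ => ((n : ℝ) ^ (1 / 3 : ℝ))⁻¹ * ((n : ℝ) ^ (1 / 3 : ℝ))⁻¹)
          atTop (𝓝 0) := by
        have h := tendsto_inv_atTop_zero.comp hr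
        have := h.mul h
        simpa using this
      have := (t1.add t2).add t3
      simpa using this
    refine squeeze_zero' (Eventually.of_forall fun n => by positivity) ?_ hlim
    filter_upwards [hX, hY, e5] with n hnX hnY h5
    have hα' := hα0 n
    have hr0 : 0 < (n : ℝ) ^ (1 / 3 : ℝ) := by linarith
    have hn := rn3 n
    have hn0 : (0:ℝ) ≤ n := Nat.cast_nonneg n
    rw [hm n, hm' n]
    have hf := abs_floor_sub (X := (n * α n / (2 * (α n + 1))) * (1 + ε n))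
      (Y := ((n : ℝ) / 2) * (1 + lam / (n : ℝ) ^ (1 / 3 : ℝ))) (by linarith [hnX.1])
      (by linarith [hnY.1])
    set r := (n : ℝ) ^ (1 / 3 : ℝ) with hrd
    have h1 : (n * α n / (2 * (α n + 1))) * (1 + ε n) - ((n : ℝ) / 2) * (1 + lam / r)
        = r ^ 2 * ((1/2) * (ε n * r - lam) - (1/2) * ((1 + ε n) * (r / (α n + 1)))) := by
      rw [← hn]; field_simp; ring
    have h2 : |(n * α n / (2 * (α n + 1))) * (1 + ε n) - ((n : ℝ) / 2) * (1 + lam / r)|
        ≤ r ^ 2 * ((1/2) * |ε n * r - lam| + (1/2) * ((1 + |ε n|) * (r / α n))) := by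
      rw [h1, abs_mul, abs_of_pos (by positivity : 0 < r ^ 2)]
      refine mul_le_mul_of_nonneg_left ?_ (by positivity)
      refine (abs_sub _ _).trans ?_
      rw [abs_mul, abs_mul, abs_mul, abs_of_pos (by norm_num : (0:ℝ) < 1/2)]
      have h3 : |1 + ε n| ≤ 1 + |ε n| := by
        refine (abs_add_le _ _).trans ?_
        rw [abs_one]
      have h4 : |r / (α n + 1)| ≤ r / α n := by
        rw [abs_of_nonneg (by positivity)]
        exact div_le_div_of_nonneg_left hr0.le hα' (by linarith)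
      have h5 : |1 + ε n| * |r / (α n + 1)| ≤ (1 + |ε n|) * (r / α n) :=
        mul_le_mul h3 h4 (abs_nonneg _) (by positivity)
      linarith
    rw [div_le_iff₀ (by positivity)]
    refine hf.trans ?_
    have h6 : (r⁻¹ * r⁻¹) * r ^ 2 = 1 := by field_simp
    calc |(n * α n / (2 * (α n + 1))) * (1 + ε n) - ((n : ℝ) / 2) * (1 + lam / r)| + 1
        ≤ r ^ 2 * ((1/2) * |ε n * r - lam| + (1/2) * ((1 + |ε n|) * (r / α n)))
          + (r⁻¹ * r⁻¹) * r ^ 2 := by rw [h6]; linarith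
      _ = _ := by ring

/-- the answer to Q2, from the modules -/
theorem mainQ2 (hTEL : StmTEL) (hSW : StmSW) (hCO : StmCO) (hDET : StmDET) (hTVB : StmTVB)
    (lam : ℝ) (α ε : ℕ → ℝ) (m m' : ℕ → ℕ) (hα0 : ∀ n, 0 < α n)
    (hα : Tendsto (fun n : ℕ => α n / Real.sqrt n) atTop atTop)
    (hε : Tendsto (fun n : ℕ => ε n * (n : ℝ) ^ (1 / 3 : ℝ)) atTop (𝓝 lam))
    (hm : ∀ n : ℕ, m n = ⌊(n * α n / (2 * (α n + 1))) * (1 + ε n)⌋₊)
    (hm' : ∀ n : ℕ, m' n = ⌊((n : ℝ) / 2) * (1 + lam / (n : ℝ) ^ (1 / 3 : ℝ))⌋₊)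
    (k : ℕ) (F : (Fin k → ℝ) → ℝ) (hF : Continuous F) (hB : ∃ B : ℝ, ∀ u, |F u| ≤ B) :
    Tendsto (fun n : ℕ =>
      ∑ H : Finset (Sym2 (Fin n)), law (wgt (α n)) (m n) H *
        F (fun j => (L H (j + 1) : ℝ) / (n : ℝ) ^ (2 / 3 : ℝ))
      - ∑ H : Finset (Sym2 (Fin n)), er (m' n) H *
        F (fun j => (L H (j + 1) : ℝ) / (n : ℝ) ^ (2 / 3 : ℝ))) atTop (𝓝 0) := by
  obtain ⟨B, hB⟩ := hB
  obtain ⟨h1, h2, h3⟩ := window lam α ε m m' hα0 hα hε hm hm'
  have hlam : 0 ≤ |lam| + 1 := by positivity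
  have t1 := two_seq hTEL hSW hCO hDET F hF hB m m' hlam h1 h2 h3
  have hmn : ∀ᶠ n : ℕ in atTop, (m n : ℝ) ≤ 1 * n := by
    filter_upwards [h1, tend_r.eventually_ge_atTop (|lam| + 1)] with n hn hr
    have hr0 : 0 < (n : ℝ) ^ (1 / 3 : ℝ) := by linarith [abs_nonneg lam]
    have h4 : (|lam| + 1) / (n : ℝ) ^ (1 / 3 : ℝ) ≤ 1 := by rw [div_le_one hr0]; exact hr
    have hn0 : (0:ℝ) ≤ n := Nat.cast_nonneg n
    nlinarith [hn.2]
  have t2 := (tvlim hTVB α m zero_le_one hα0 hα hmn).const_mul B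
  rw [mul_zero] at t2
  have t3 : Tendsto (fun n : ℕ =>
      ∑ H : Finset (Sym2 (Fin n)), law (wgt (α n)) (m n) H *
        F (fun j => (L H (j + 1) : ℝ) / (n : ℝ) ^ (2 / 3 : ℝ))
      - ∑ H : Finset (Sym2 (Fin n)), er (m n) H *
        F (fun j => (L H (j + 1) : ℝ) / (n : ℝ) ^ (2 / 3 : ℝ))) atTop (𝓝 0) := by
    refine squeeze_zero_norm (fun n => ?_) t2
    rw [Real.norm_eq_abs, ← Finset.sum_sub_distrib, Finset.mul_sum]
    refine (Finset.abs_sum_le_sum_abs _ _).trans (Finset.sum_le_sum fun H _ => ?_)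
    rw [← sub_mul, abs_mul, mul_comm]
    exact mul_le_mul_of_nonneg_right (hB _) (abs_nonneg _)
  have t4 := t3.add t1
  rw [add_zero] at t4
  refine t4.congr fun n => ?_
  rw [sum_er, sum_er]
  simp only [rn2]
  ring

end Pool.Agent.T6.H44.PA
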