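import Pool.Agent.T6.H44.PA.BR

set_option autoImplicit false
set_option linter.unusedSectionVars false
set_option linter.unusedVariables false

namespace Pool.Agent.T6.H44.PA.GB

open Finset Classical
open Pool.Agent.H890.C

variable {V : Type} [Fintype V] [DecidableEq V]

theorem ghost_eps {p : Sym2 V → ℝ} (hp : Adm p) {ε : ℝ} (hε0 : 0 ≤ ε) (hε1 : ε ≤ 1/8) (hrow : ∀ x, ∑ w, p s(x, w) ≤ 1 + ε)
    (hsq : ∀ x, ∑ w, p s(x, w) ^ 2 ≤ 1/8) (hhalf : ∀ e, p e ≤ 1/2) (hT : Trans p)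
    {h : ℝ} (h0 : 0 ≤ h) (h1 : h ≤ 1) (o : V) :
    (1 - ex p (fun ω => (1 - h) ^ (cl ω univ o).card)) ^ 2 ≤ 8 * h + 8 * ε * (1 - ex p (fun ω => (1 - h) ^ (cl ω univ o).card)) ∧
    0 ≤ 1 - ex p (fun ω => (1 - h) ^ (cl ω univ o).card) := by
  set z := 1 - h with hz
  have hz0 : 0 ≤ z := by rw [hz]; linarith
  have hz1 : z ≤ 1 := by rw [hz]; linarith
  set M := 1 - ex p (fun ω => z ^ (cl ω univ o).card) with hM
  set B := (univ : Finset V).erase o with hB
  have hoB : o ∉ B := Finset.notMem_erase o univ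
  have hM0 : 0 ≤ M := by
    have : ex p (fun ω => z ^ (cl ω univ o).card) ≤ ex p (fun _ => 1) :=
      ex_mono hp fun ω => pow_le_one₀ hz0 hz1
    rw [ex_const] at this
    rw [hM]; linarith
  have hM1 : M ≤ 1 := by
    have : 0 ≤ ex p (fun ω => z ^ (cl ω univ o).card) :=
      ex_nonneg hp fun ω => pow_nonneg hz0 _
    rw [hM]; linarith
  refine ⟨?_, hM0⟩
  let f : V → (Sym2 V → Bool) → ℝ := fun y ω => 1 - xi ω o y * (1 - z ^ (cl ω B y).card)
  have hf0 : ∀ y ω, 0 ≤ f y ω := by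
    intro y ω
    simp only [f]
    unfold xi
    have : 0 ≤ z ^ (cl ω B y).card := pow_nonneg hz0 _
    split_ifs
    · linarith
    · norm_num
  have hf1 : ∀ y ω, f y ω ≤ 1 := by
    intro y ω
    simp only [f]
    unfold xi
    have : z ^ (cl ω B y).card ≤ 1 := pow_le_one₀ hz0 hz1
    split_ifs
    · linarith
    · norm_num
  have hfa : ∀ y, Antitone (f y) := by
    intro y ω η hωη
    simp only [f]
    unfold xi
    by_cases ha : ω s(o, y) = true
    · have hb : η s(o, y) = true := by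
        have := hωη s(o, y)
        rw [ha] at this
        exact top_le_iff.1 this
      rw [if_pos ha, if_pos hb]
      have : z ^ (cl η B y).card ≤ z ^ (cl ω B y).card :=
        pow_le_pow_of_le_one hz0 hz1 (Finset.card_le_card (cl_mono_cfg B hωη y))
      linarith
    · rw [if_neg ha]
      have : z ^ (cl η B y).card ≤ 1 := pow_le_one₀ hz0 hz1
      split_ifs <;> linarith
  have hpt : ∀ ω : Sym2 V → Bool, z * ∏ y, f y ω ≤ z ^ (cl ω univ o).card := by
    intro ω
    have h2 := pow_le_pow_of_le_one hz0 hz1 (card_le_one_add ω o)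
    refine le_trans (le_of_eq ?_) h2
    rw [pow_add, pow_one, ← Finset.prod_pow_eq_pow_sum]
    congr 1
    refine Finset.prod_congr rfl fun y _ => ?_
    simp only [f]
    unfold xi
    by_cases ha : ω s(o, y) = true
    · rw [if_pos ha, if_pos ha]; ring
    · rw [if_neg ha, if_neg ha]; simp
  have h2 : z * ∏ y, ex p (f y) ≤ 1 - M := by
    have e1 := ex_mono hp hpt
    rw [ex_smul] at e1
    have e2 := ex_fkg_prod hp univ f hf0 hf1 hfa
    have e3 : ex p (fun ω => z ^ (cl ω univ o).card) = 1 - M := by rw [hM]; ring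
    rw [e3] at e1
    exact (mul_le_mul_of_nonneg_left e2 hz0).trans e1
  have h3 : ∀ y, 1 - p s(o, y) * M ≤ ex p (f y) := by
    intro y
    simp only [f]
    rw [ex_sub, ex_const, ex_edge_mul p hoB y (InDep.cl y (fun S => 1 - z ^ S.card))]
    rw [ex_sub, ex_const]
    have : ex p (fun ω => z ^ (cl ω univ y).card) ≤ ex p (fun ω => z ^ (cl ω B y).card) :=
      ex_mono hp fun ω => pow_le_pow_of_le_one hz0 hz1
        (Finset.card_le_card (cl_mono_set (Finset.subset_univ _) y))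
    rw [ex_card_eq hT (fun n => z ^ n) y o] at this
    have h5 : 1 - ex p (fun ω => z ^ (cl ω B y).card) ≤ M := by rw [hM]; linarith
    have := mul_le_mul_of_nonneg_left h5 (hp s(o, y)).1
    linarith
  have h4 : Real.exp (-((1+ε) * M + M^2/8)) ≤ ∏ y, (1 - p s(o, y) * M) := by
    have h5 : ∏ y, Real.exp (-(p s(o, y) * M) - (p s(o, y) * M)^2) ≤ ∏ y, (1 - p s(o, y) * M) := by
      refine Finset.prod_le_prod (fun y _ => (Real.exp_pos _).le) fun y _ => ?_
      refine one_sub_ge_exp (mul_nonneg (hp _).1 hM0) ?_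
      have := hhalf s(o, y)
      have := (hp s(o, y)).1
      nlinarith
    refine le_trans ?_ h5
    rw [← Real.exp_sum]
    apply Real.exp_le_exp.2
    have h6 : ∑ y, (-(p s(o, y) * M) - (p s(o, y) * M)^2)
        = -((∑ y, p s(o, y)) * M + (∑ y, p s(o, y)^2) * M^2) := by
      rw [Finset.sum_mul, Finset.sum_mul, ← Finset.sum_add_distrib, ← Finset.sum_neg_distrib]
      exact Finset.sum_congr rfl fun y _ => by ring
    rw [h6]
    have h7 := mul_le_mul_of_nonneg_right (hrow o) hM0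
    have h8 := mul_le_mul_of_nonneg_right (hsq o) (sq_nonneg M)
    linarith
  have h5 : ∏ y, (1 - p s(o, y) * M) ≤ ∏ y, ex p (f y) := by
    refine Finset.prod_le_prod (fun y _ => ?_) fun y _ => h3 y
    have := (hp s(o, y)).2
    have := (hp s(o, y)).1
    nlinarith
  have hεM0 : 0 ≤ ε * M := mul_nonneg hε0 hM0
  have hεM1 : ε * M ≤ M / 8 := by nlinarith
  have hMM : M ^ 2 ≤ M := by nlinarith
  have h6 : 1 - ((1+ε) * M + M^2/8) + ((1+ε) * M + M^2/8)^2/4 ≤ Real.exp (-((1+ε) * M + M^2/8)) :=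
    exp_neg_ge (by nlinarith)
  have h7 : 1 - (1+ε) * M + M^2/8 ≤ ∏ y, ex p (f y) := by
    have hb : (M + M^2/8)^2 ≤ ((1+ε) * M + M^2/8)^2 := by
      apply pow_le_pow_left₀ (by positivity)
      nlinarith
    have : 1 - (1+ε) * M + M^2/8 ≤ 1 - ((1+ε) * M + M^2/8) + ((1+ε) * M + M^2/8)^2/4 := by
      nlinarith [mul_nonneg hM0 hM0]
    linarith
  have h8 : z * (1 - (1+ε) * M + M^2/8) ≤ 1 - M := (mul_le_mul_of_nonneg_left h7 hz0).trans h2
  rw [hz] at h8
  have h9 : h * (1 - (1+ε) * M + M^2/8) ≤ h := by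
    have : 1 - (1+ε) * M + M^2/8 ≤ 1 := by nlinarith
    nlinarith
  nlinarith


end Pool.Agent.T6.H44.PA.GB

namespace Pool.Agent.T6.H44.PA

open Finset Classical
open Pool.Agent.H890.C (ex cl Adm Trans ex_mono ex_smul ex_sub ex_const)

theorem pc_adm (n : ℕ) {π : ℝ} (h0 : 0 ≤ π) (h1 : π ≤ 1) : Adm (pc n π) := by
  intro e
  unfold pc
  split_ifs
  · exact ⟨le_refl _, zero_le_one⟩
  · exact ⟨h0, h1⟩

theorem pc_trans (n : ℕ) (π : ℝ) : Trans (pc n π) := by
  intro x y
  refine ⟨Equiv.swap x y, Equiv.swap_apply_left x y, fun e => ?_⟩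
  unfold pc
  have : (Sym2.map (Equiv.swap x y) e).IsDiag ↔ e.IsDiag := by
    induction e using Sym2.ind with
    | _ a b => simp
  simp only [this]

theorem pc_le (n : ℕ) {π : ℝ} (h0 : 0 ≤ π) (e : Sym2 (Fin n)) : 0 ≤ pc n π e ∧ pc n π e ≤ π := by
  unfold pc
  split_ifs
  · exact ⟨le_refl _, h0⟩
  · exact ⟨h0, le_refl _⟩

theorem pc_row (n : ℕ) {π : ℝ} (h0 : 0 ≤ π) (x : Fin n) : ∑ w, pc n π s(x, w) ≤ n * π := by
  calc ∑ w, pc n π s(x, w) ≤ ∑ _w : Fin n, π := Finset.sum_le_sum fun w _ => (pc_le n h0 _).2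
    _ = n * π := by simp

theorem phi_ge {K : ℝ} (hK : 1 ≤ K) (c : ℕ) (hc : K ≤ c) : 1 / 2 ≤ 1 - (1 - 1 / K) ^ c := by
  have hK0 : 0 < K := by linarith
  have h1 : 1 - 1 / K ≤ Real.exp (-(1 / K)) := by
    have := Real.add_one_le_exp (-(1 / K)); linarith
  have h2 : 0 ≤ 1 - 1 / K := by
    have : 1 / K ≤ 1 := by rw [div_le_one hK0]; exact hK
    linarith
  have h3 : (1 - 1 / K) ^ c ≤ Real.exp (-(1 / K)) ^ c := pow_le_pow_left₀ h2 h1 c
  rw [← Real.exp_nat_mul] at h3
  have h4 : (c : ℝ) * -(1 / K) ≤ -1 := by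
    have : 1 ≤ (c : ℝ) * (1 / K) := by
      rw [mul_one_div, le_div_iff₀ hK0]; linarith
    linarith
  have h5 : Real.exp ((c : ℝ) * -(1 / K)) ≤ Real.exp (-1) := Real.exp_le_exp.2 h4
  have h6 : Real.exp (-1) ≤ 1 / 2 := by
    rw [Real.exp_neg]
    have : (2 : ℝ) ≤ Real.exp 1 := by
      have := Real.add_one_le_exp (1 : ℝ); linarith
    rw [inv_eq_one_div]
    exact one_div_le_one_div_of_le (by norm_num) this
  linarith

theorem gb : StmGB := by
  intro n π ε K v h0 h1 hn hε0 hε1 hK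
  have hK0 : 0 < K := by linarith
  have hp : Adm (pc n π) := pc_adm n h0 (by linarith)
  have hrow : ∀ x, ∑ w, pc n π s(x, w) ≤ 1 + ε := fun x => (pc_row n h0 x).trans hn
  have hsq : ∀ x, ∑ w, pc n π s(x, w) ^ 2 ≤ 1 / 8 := by
    intro x
    calc ∑ w, pc n π s(x, w) ^ 2 ≤ ∑ w, (1 / 16) * pc n π s(x, w) := by
          refine Finset.sum_le_sum fun w _ => ?_
          obtain ⟨ha, hb⟩ := pc_le n h0 s(x, w)
          nlinarith
      _ = (1 / 16) * ∑ w, pc n π s(x, w) := by rw [Finset.mul_sum]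
      _ ≤ 1 / 8 := by have := hrow x; linarith
  have hhalf : ∀ e, pc n π e ≤ 1 / 2 := fun e => by
    have := (pc_le n h0 e).2; linarith
  obtain ⟨hM, hM0⟩ := GB.ghost_eps hp hε0 hε1 hrow hsq hhalf (pc_trans n π) (h := 1 / K)
    (by positivity) (by rw [div_le_one hK0]; exact hK) v
  set M := 1 - ex (pc n π) (fun ω => (1 - 1 / K) ^ (cl ω univ v).card) with hMd
  have hs : Real.sqrt (1 / K) ^ 2 = 1 / K := Real.sq_sqrt (by positivity)
  have hs0 : 0 ≤ Real.sqrt (1 / K) := Real.sqrt_nonneg _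
  have hMle : M ≤ 8 * ε + 3 * Real.sqrt (1 / K) := by
    by_contra hcon
    push Not at hcon
    have h5 : 3 * Real.sqrt (1 / K) < M - 8 * ε := by linarith
    have h6 : (3 * Real.sqrt (1 / K)) * (3 * Real.sqrt (1 / K)) ≤ (M - 8 * ε) * M := by
      have h7 : M - 8 * ε ≤ M := by linarith
      have h8 : 0 ≤ 3 * Real.sqrt (1 / K) := by positivity
      exact mul_le_mul h5.le (h5.le.trans h7) h8 (h8.trans h5.le)
    have hpos : 0 < 1 / K := by positivity
    nlinarith
  have hsK : Real.sqrt (1 / K) = 1 / Real.sqrt K := by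
    rw [Real.sqrt_div zero_le_one, Real.sqrt_one]
  have hsK0 : 0 < Real.sqrt K := Real.sqrt_pos.2 hK0
  have hKs : K * (1 / Real.sqrt K) = Real.sqrt K := by
    field_simp
    exact (Real.sq_sqrt hK0.le).symm
  have hφ0 : ∀ c : ℕ, 0 ≤ 1 - (1 - 1 / K) ^ c := by
    intro c
    have h2 : 0 ≤ 1 - 1 / K := by
      have : 1 / K ≤ 1 := by rw [div_le_one hK0]; exact hK
      linarith
    have : (1 - 1 / K) ^ c ≤ 1 := pow_le_one₀ h2 (by
      have : 0 < 1 / K := by positivity
      linarith)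
    linarith
  have hE : ex (pc n π) (fun ω => 1 - (1 - 1 / K) ^ (cl ω univ v).card) = M := by
    rw [ex_sub, ex_const]
  constructor
  · have h2 : gp π (fun H => min ((comp H v).card : ℝ) K)
        ≤ ex (pc n π) (fun ω => (2 * K) * (1 - (1 - 1 / K) ^ (cl ω univ v).card)) := by
      unfold gp
      refine ex_mono hp fun ω => ?_
      beta_reduce
      rw [br n ω v]
      rcases le_total ((cl ω univ v).card : ℝ) K with hc | hc
      · rw [min_eq_left hc]
        exact Pool.Agent.H890.C.n_le_trunc hK _ hc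
      · rw [min_eq_right hc]
        have := phi_ge hK _ hc
        nlinarith
    rw [ex_smul, hE] at h2
    refine h2.trans ?_
    have h3 : 2 * K * M ≤ 2 * K * (8 * ε + 3 * Real.sqrt (1 / K)) :=
      mul_le_mul_of_nonneg_left hMle (by positivity)
    refine h3.trans (le_of_eq ?_)
    rw [hsK]
    calc 2 * K * (8 * ε + 3 * (1 / Real.sqrt K)) = 16 * ε * K + 6 * (K * (1 / Real.sqrt K)) := by
          ring
      _ = 6 * Real.sqrt K + 16 * ε * K := by rw [hKs]; ring
  · have h2 : gp π (fun H => if K ≤ ((comp H v).card : ℝ) then 1 else 0)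
        ≤ ex (pc n π) (fun ω => 2 * (1 - (1 - 1 / K) ^ (cl ω univ v).card)) := by
      unfold gp
      refine ex_mono hp fun ω => ?_
      beta_reduce
      rw [br n ω v]
      split_ifs with hc
      · have := phi_ge hK _ hc
        linarith
      · have := hφ0 (cl ω univ v).card
        linarith
    rw [ex_smul, hE] at h2
    refine h2.trans ?_
    rw [hsK] at hMle
    calc 2 * M ≤ 2 * (8 * ε + 3 * (1 / Real.sqrt K)) := by linarith
      _ = 6 / Real.sqrt K + 16 * ε := by ring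

end Pool.Agent.T6.H44.PA
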